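import Pool.Agent.H858R3.Lift

/-!
# Two proper crossings on a closed walk of length four

The logarithmic variations of `Pool.Agent.H858R3.Lift` (a copy of the module of the same name by
the team member `helper477`) are used to show that four arcs cannot form a quadrilateral whose two
pairs of opposite sides both cross properly.
-/

set_option autoImplicit false

namespace Pool.Agent.H858R3.Cross

open Complex Set Pool.Agent.H858R3.Lift

/-- the variation of an arc seen from a point -/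
noncomputable def al (z : ℂ) (Y : ℝ → ℂ) : ℂ := lv (fun t => Y t - z) 0 1

theorem beta_al (X Y : ℝ → ℂ) : beta X Y 1 1 = al (Y 1) X - al (X 1) Y := rfl

theorem R {X Y : ℝ → ℂ} (hX : Continuous X) (hY : Continuous Y) (h : ∀ s t, X s ≠ Y t) :
    al (X 1) Y - al (X 0) Y - al (Y 1) X + al (Y 0) X = 0 := indep hX hY h

/-- the orientation of three arcs at a common starting point -/
noncomputable def S (X Y Z : ℝ → ℂ) : ℂ := beta X Y 1 1 + beta Y Z 1 1 + beta Z X 1 1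

theorem S_swap (X Y Z : ℝ → ℂ) : S X Z Y = - S X Y Z := by
  unfold S
  rw [beta_anti Z X, beta_anti Y Z, beta_anti X Y]
  ring

theorem S_rot (X Y Z : ℝ → ℂ) : S Y Z X = S X Y Z := by
  unfold S; ring

theorem S_cocycle (A B C D : ℝ → ℂ) : S A B C - S A B D + S A C D - S B C D = 0 := by
  unfold S
  rw [beta_anti A C, beta_anti A D, beta_anti B D, beta_anti D A, beta_anti C A, beta_anti C B,
    beta_anti D C, beta_anti D B]
  rw [beta_anti A C, beta_anti A D, beta_anti B D]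
  ring

/-- two arcs with a common starting point, otherwise disjoint -/
def Cor (X Y : ℝ → ℂ) : Prop := ∀ s t, X s = Y t → s ≤ 0 ∧ t ≤ 0

theorem Cor.symm {X Y : ℝ → ℂ} (h : Cor X Y) : Cor Y X := fun s t hst => (h t s hst.symm).symm

theorem S_exp {X Y Z : ℝ → ℂ} (hX : Continuous X) (hY : Continuous Y) (hZ : Continuous Z)
    (hXY0 : X 0 = Y 0) (hXZ0 : X 0 = Z 0) (hXY : Cor X Y) (hYZ : Cor Y Z) (hZX : Cor Z X) :
    exp (S X Y Z) = -1 := by
  have n1 : X 1 - X 0 ≠ 0 := by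
    rw [sub_ne_zero, hXY0]
    intro h1
    have := (hXY _ _ h1).1
    linarith
  have n2 : Y 1 - X 0 ≠ 0 := by
    rw [sub_ne_zero]
    intro h1
    have := (hXY _ _ h1.symm).2
    linarith
  have n3 : Z 1 - X 0 ≠ 0 := by
    rw [sub_ne_zero]
    intro h1
    have := (hZX _ _ h1).1
    linarith
  unfold S
  rw [exp_add, exp_add, beta_exp hX hY hXY, beta_exp hY hZ hYZ, beta_exp hZ hX hZX, ← hXY0,
    ← hXZ0]
  field_simp
  ring

theorem lv_comp {g : ℝ → ℂ} (hg : Continuous g) (h0 : ∀ t, g t ≠ 0) {ρ : ℝ → ℝ}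
    (hρ : Continuous ρ) (u v : ℝ) : lv (fun t => g (ρ t)) u v = lv g (ρ u) (ρ v) := by
  obtain ⟨L, hL, h⟩ := lift1 hg h0
  rw [lv_eq hL h, lv_eq (L := fun t => L (ρ t)) (by fun_prop) (fun t => h (ρ t))]

/-- the restriction of an arc to the interval from `0` to `a` -/
noncomputable def tr (X : ℝ → ℂ) (a : ℝ) : ℝ → ℂ := fun t => X (a * max 0 (min t 1))

theorem tr_cont {X : ℝ → ℂ} (hX : Continuous X) (a : ℝ) : Continuous (tr X a) := by
  unfold tr; fun_prop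

theorem tr_zero (X : ℝ → ℂ) (a : ℝ) : tr X a 0 = X 0 := by simp [tr]

theorem tr_one (X : ℝ → ℂ) (a : ℝ) : tr X a 1 = X a := by simp [tr]

theorem tr_mem {X : ℝ → ℂ} {a : ℝ} (ha : 0 < a) (t : ℝ) :
    ∃ s, 0 ≤ s ∧ s ≤ a ∧ tr X a t = X s ∧ (t ≤ 0 → s = 0) ∧ (s ≤ 0 → t ≤ 0) := by
  refine ⟨a * max 0 (min t 1), ?_, ?_, rfl, ?_, ?_⟩
  · positivity
  · have : max 0 (min t 1) ≤ 1 := max_le zero_le_one (min_le_right _ _)
    nlinarith
  · intro h
    have : max 0 (min t 1) = 0 := by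
      rw [max_eq_left]; exact (min_le_left _ _).trans h
    rw [this, mul_zero]
  · intro h
    by_contra hcon
    push Not at hcon
    have : 0 < max 0 (min t 1) := lt_max_of_lt_right (lt_min hcon one_pos)
    have := mul_pos ha this
    linarith

theorem beta_tr {X Y : ℝ → ℂ} (hX : Continuous X) (hY : Continuous Y) (h : Cor X Y)
    {a b : ℝ} (ha : 0 < a) (hb : 0 < b) : beta (tr X a) (tr Y b) 1 1 = beta X Y a b := by
  unfold beta
  have e1 : lv (fun s => tr X a s - tr Y b 1) 0 1 = lv (fun s => X s - Y b) 0 a := by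
    rw [tr_one]
    have := lv_comp (g := fun s => X s - Y b) (by fun_prop)
      (fun t ht => absurd (h _ _ (sub_eq_zero.1 ht)).2 (not_le.2 hb))
      (ρ := fun t => a * max 0 (min t 1)) (by fun_prop) 0 1
    simpa [tr] using this
  have e2 : lv (fun s => tr Y b s - tr X a 1) 0 1 = lv (fun s => Y s - X a) 0 b := by
    rw [tr_one]
    have := lv_comp (g := fun s => Y s - X a) (by fun_prop)
      (fun t ht => absurd (h _ _ (sub_eq_zero.1 ht).symm).1 (not_le.2 ha))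
      (ρ := fun t => b * max 0 (min t 1)) (by fun_prop) 0 1
    simpa [tr] using this
  rw [e1, e2]

/-- the orientation only depends on the beginnings of the arcs -/
theorem S_tr {X Y Z : ℝ → ℂ} (hX : Continuous X) (hY : Continuous Y) (hZ : Continuous Z)
    (hXY0 : X 0 = Y 0) (hXZ0 : X 0 = Z 0) (hXY : Cor X Y) (hYZ : Cor Y Z) (hZX : Cor Z X)
    {a b c : ℝ} (ha : 0 < a) (hb : 0 < b) (hc : 0 < c) (ha1 : a ≤ 1) (hb1 : b ≤ 1) (hc1 : c ≤ 1) :
    S (tr X a) (tr Y b) (tr Z c) = S X Y Z := by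
  have hYZ0 : Y 0 = Z 0 := hXY0.symm.trans hXZ0
  have t1 := beta_trunc hX hY hXY hXY0 ha hb ha1 hb1
  have t2 := beta_trunc hY hZ hYZ hYZ0 hb hc hb1 hc1
  have t3 := beta_trunc hZ hX hZX hXZ0.symm hc ha hc1 ha1
  rw [← hXY0] at t2
  rw [← hXZ0] at t3
  unfold S
  rw [beta_tr hX hY hXY ha hb, beta_tr hY hZ hYZ hb hc, beta_tr hZ hX hZX hc ha, t1, t2, t3]
  ring

/-- four spokes and two opposite arcs of the rim of a wheel -/
theorem wheel {s₁ s₂ s₃ s₄ r₁₂ r₃₄ : ℝ → ℂ} (c₁ : Continuous s₁) (c₂ : Continuous s₂)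
    (c₃ : Continuous s₃) (c₄ : Continuous s₄) (c₁₂ : Continuous r₁₂) (c₃₄ : Continuous r₃₄)
    (h12 : s₁ 0 = s₂ 0) (h13 : s₁ 0 = s₃ 0) (h14 : s₁ 0 = s₄ 0)
    (e1 : r₁₂ 0 = s₁ 1) (e2 : r₁₂ 1 = s₂ 1) (e3 : r₃₄ 0 = s₃ 1) (e4 : r₃₄ 1 = s₄ 1)
    (d1 : ∀ s t, r₁₂ s ≠ s₃ t) (d2 : ∀ s t, r₁₂ s ≠ s₄ t) (d3 : ∀ s t, r₃₄ s ≠ s₁ t)
    (d4 : ∀ s t, r₃₄ s ≠ s₂ t) (d5 : ∀ s t, r₁₂ s ≠ r₃₄ t) :
    S s₁ s₂ s₃ = S s₁ s₂ s₄ := by
  have q1 := R c₁₂ c₃ d1
  have q2 := R c₁₂ c₄ d2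
  have q3 := R c₃₄ c₁ d3
  have q4 := R c₃₄ c₂ d4
  have q5 := R c₁₂ c₃₄ d5
  rw [e1, e2] at q1 q2 q5
  rw [e3, e4] at q3 q4 q5
  rw [← h13] at q1
  rw [← h14] at q2
  rw [← h12] at q4
  unfold S
  simp only [beta_al]
  linear_combination q3 - q4 - q1 + q2 - q5

/-- the part of `crossing_sign` for one pair of opposite sectors -/
theorem half {A B C D : ℝ → ℂ} (cA : Continuous A) (cB : Continuous B) (cC : Continuous C)
    (cD : Continuous D) (hAB0 : A 0 = B 0) (hAC0 : A 0 = C 0) (hAD0 : A 0 = D 0)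
    (hAB : Cor A B) (hAC : Cor A C) (hAD : Cor A D) (hBC : Cor B C) (hCD : Cor C D)
    (φ : OpenPartialHomeomorph ℂ (ℝ × ℝ)) {ε a b c d : ℝ}
    (hball : Metric.ball (0 : ℝ × ℝ) ε ⊆ φ.target)
    (ha : 0 < a) (hb : 0 < b) (hc : 0 < c) (hd : 0 < d)
    (ha1 : a ≤ 1) (hb1 : b ≤ 1) (hc1 : c ≤ 1) (hd1 : d ≤ 1)
    (fA : ∀ s, 0 ≤ s → s ≤ a → A s ∈ φ.source ∧ φ (A s) ∈ Metric.ball (0 : ℝ × ℝ) ε ∧
      (φ (A s)).2 = 0)
    (fB : ∀ s, 0 ≤ s → s ≤ b → B s ∈ φ.source ∧ φ (B s) ∈ Metric.ball (0 : ℝ × ℝ) ε ∧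
      (φ (B s)).2 = 0)
    (fC : ∀ s, 0 ≤ s → s ≤ c → C s ∈ φ.source ∧ φ (C s) ∈ Metric.ball (0 : ℝ × ℝ) ε ∧
      (φ (C s)).1 = 0)
    (fD : ∀ s, 0 ≤ s → s ≤ d → D s ∈ φ.source ∧ φ (D s) ∈ Metric.ball (0 : ℝ × ℝ) ε ∧
      (φ (D s)).1 = 0)
    (gAB : ∀ s t, 0 ≤ s → s ≤ a → 0 ≤ t → t ≤ b → (φ (A s)).1 * (φ (B t)).1 ≤ 0)
    (gCD : ∀ s t, 0 ≤ s → s ≤ c → 0 ≤ t → t ≤ d → (φ (C s)).2 * (φ (D t)).2 ≤ 0)
    (nA : (φ (A a)).1 ≠ 0) (nB : (φ (B b)).1 ≠ 0) (nC : (φ (C c)).2 ≠ 0)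
    (nD : (φ (D d)).2 ≠ 0) :
    S A C B = S A C D := by
  have sub : ∀ x y : ℝ × ℝ, x ∈ Metric.ball (0 : ℝ × ℝ) ε → y ∈ Metric.ball (0 : ℝ × ℝ) ε →
      ∀ t : ℝ, (1 - max 0 (min t 1)) • x + max 0 (min t 1) • y ∈ Metric.ball (0 : ℝ × ℝ) ε := by
    intro x y hx hy t
    have h0 : 0 ≤ max 0 (min t 1) := le_max_left _ _
    have h1 : max 0 (min t 1) ≤ 1 := max_le zero_le_one (min_le_right _ _)
    exact convex_ball (0 : ℝ × ℝ) ε hx hy (by linarith) h0 (by ring)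
  -- the two arcs of the rim
  set r₁ : ℝ → ℂ := fun t =>
    φ.symm ((1 - max 0 (min t 1)) • φ (A a) + max 0 (min t 1) • φ (C c)) with hr₁
  set r₂ : ℝ → ℂ := fun t =>
    φ.symm ((1 - max 0 (min t 1)) • φ (B b) + max 0 (min t 1) • φ (D d)) with hr₂
  have m₁ : ∀ t : ℝ, (1 - max 0 (min t 1)) • φ (A a) + max 0 (min t 1) • φ (C c) ∈ φ.target :=
    fun t => hball (sub _ _ (fA a ha.le le_rfl).2.1 (fC c hc.le le_rfl).2.1 t)
  have m₂ : ∀ t : ℝ, (1 - max 0 (min t 1)) • φ (B b) + max 0 (min t 1) • φ (D d) ∈ φ.target :=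
    fun t => hball (sub _ _ (fB b hb.le le_rfl).2.1 (fD d hd.le le_rfl).2.1 t)
  have cr₁ : Continuous r₁ :=
    φ.continuousOn_symm.comp_continuous (by fun_prop) m₁
  have cr₂ : Continuous r₂ :=
    φ.continuousOn_symm.comp_continuous (by fun_prop) m₂
  have φr₁ : ∀ t, φ (r₁ t) = ((1 - max 0 (min t 1)) * (φ (A a)).1, max 0 (min t 1) * (φ (C c)).2) := by
    intro t
    rw [hr₁]
    simp only
    rw [φ.right_inv (m₁ t)]
    apply Prod.ext
    · simp [(fC c hc.le le_rfl).2.2]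
    · simp [(fA a ha.le le_rfl).2.2]
  have φr₂ : ∀ t, φ (r₂ t) = ((1 - max 0 (min t 1)) * (φ (B b)).1, max 0 (min t 1) * (φ (D d)).2) := by
    intro t
    rw [hr₂]
    simp only
    rw [φ.right_inv (m₂ t)]
    apply Prod.ext
    · simp [(fD d hd.le le_rfl).2.2]
    · simp [(fB b hb.le le_rfl).2.2]
  have cl : ∀ t : ℝ, 0 ≤ max 0 (min t 1) ∧ max 0 (min t 1) ≤ 1 := fun t =>
    ⟨le_max_left _ _, max_le zero_le_one (min_le_right _ _)⟩
  have key := wheel (s₁ := tr A a) (s₂ := tr C c) (s₃ := tr B b) (s₄ := tr D d) (r₁₂ := r₁)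
    (r₃₄ := r₂) (tr_cont cA a) (tr_cont cC c) (tr_cont cB b) (tr_cont cD d) cr₁ cr₂
    (by rw [tr_zero, tr_zero, hAC0]) (by rw [tr_zero, tr_zero, hAB0])
    (by rw [tr_zero, tr_zero, hAD0])
    (by rw [tr_one, hr₁]; simp [φ.left_inv (fA a ha.le le_rfl).1])
    (by rw [tr_one, hr₁]; simp [φ.left_inv (fC c hc.le le_rfl).1])
    (by rw [tr_one, hr₂]; simp [φ.left_inv (fB b hb.le le_rfl).1])
    (by rw [tr_one, hr₂]; simp [φ.left_inv (fD d hd.le le_rfl).1])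
    (by
      intro s t hst
      obtain ⟨u, hu0, hu1, hu, -, -⟩ := tr_mem (X := B) hb t
      have h1 := congrArg φ hst
      rw [φr₁, hu] at h1
      have h2 := congrArg Prod.fst h1
      have h3 := congrArg Prod.snd h1
      simp only at h2 h3
      rw [(fB u hu0 hu1).2.2] at h3
      have h4 : max 0 (min s 1) = 0 := (mul_eq_zero.1 h3).resolve_right nC
      rw [h4] at h2
      have h5 := gAB a u ha.le le_rfl hu0 hu1
      rw [← h2] at h5
      have : 0 < (φ (A a)).1 * (φ (A a)).1 := mul_self_pos.2 nA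
      linarith)
    (by
      intro s t hst
      obtain ⟨u, hu0, hu1, hu, -, -⟩ := tr_mem (X := D) hd t
      have h1 := congrArg φ hst
      rw [φr₁, hu] at h1
      have h2 := congrArg Prod.fst h1
      have h3 := congrArg Prod.snd h1
      simp only at h2 h3
      rw [(fD u hu0 hu1).2.2] at h2
      have h4 : 1 - max 0 (min s 1) = 0 := (mul_eq_zero.1 h2).resolve_right nA
      have h4' : max 0 (min s 1) = 1 := by linarith
      rw [h4'] at h3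
      have h5 := gCD c u hc.le le_rfl hu0 hu1
      rw [← h3] at h5
      have : 0 < (φ (C c)).2 * (φ (C c)).2 := mul_self_pos.2 nC
      linarith)
    (by
      intro s t hst
      obtain ⟨u, hu0, hu1, hu, -, -⟩ := tr_mem (X := A) ha t
      have h1 := congrArg φ hst
      rw [φr₂, hu] at h1
      have h2 := congrArg Prod.fst h1
      have h3 := congrArg Prod.snd h1
      simp only at h2 h3
      rw [(fA u hu0 hu1).2.2] at h3
      have h4 : max 0 (min s 1) = 0 := (mul_eq_zero.1 h3).resolve_right nD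
      rw [h4] at h2
      have h5 := gAB u b hu0 hu1 hb.le le_rfl
      rw [← h2] at h5
      have : 0 < (φ (B b)).1 * (φ (B b)).1 := mul_self_pos.2 nB
      linarith)
    (by
      intro s t hst
      obtain ⟨u, hu0, hu1, hu, -, -⟩ := tr_mem (X := C) hc t
      have h1 := congrArg φ hst
      rw [φr₂, hu] at h1
      have h2 := congrArg Prod.fst h1
      have h3 := congrArg Prod.snd h1
      simp only at h2 h3
      rw [(fC u hu0 hu1).2.2] at h2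
      have h4 : 1 - max 0 (min s 1) = 0 := (mul_eq_zero.1 h2).resolve_right nB
      have h4' : max 0 (min s 1) = 1 := by linarith
      rw [h4'] at h3
      have h5 := gCD u d hu0 hu1 hd.le le_rfl
      rw [← h3] at h5
      have : 0 < (φ (D d)).2 * (φ (D d)).2 := mul_self_pos.2 nD
      linarith)
    (by
      intro s t hst
      have h1 := congrArg φ hst
      rw [φr₁, φr₂] at h1
      have h2 := congrArg Prod.fst h1
      have h3 := congrArg Prod.snd h1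
      simp only at h2 h3
      have h5 := gAB a b ha.le le_rfl hb.le le_rfl
      have h6 := gCD c d hc.le le_rfl hd.le le_rfl
      have hs := cl s
      have ht := cl t
      have h7 : (1 - max 0 (min s 1)) = 0 := by
        by_contra hne
        have hpos : 0 < 1 - max 0 (min s 1) := lt_of_le_of_ne (by linarith) (Ne.symm hne)
        have h8 : 0 < ((1 - max 0 (min s 1)) * (φ (A a)).1) * ((1 - max 0 (min s 1)) * (φ (A a)).1) :=
          mul_self_pos.2 (mul_ne_zero hne nA)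
        have h9 : ((1 - max 0 (min s 1)) * (φ (A a)).1) * ((1 - max 0 (min s 1)) * (φ (A a)).1)
            = ((1 - max 0 (min s 1)) * (1 - max 0 (min t 1))) * ((φ (A a)).1 * (φ (B b)).1) := by
          nth_rewrite 2 [h2]; ring
        rw [h9] at h8
        have h10 : 0 ≤ (1 - max 0 (min s 1)) * (1 - max 0 (min t 1)) :=
          mul_nonneg (by linarith) (by linarith)
        nlinarith
      have h7' : max 0 (min s 1) = 1 := by linarith
      rw [h7'] at h3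
      have h8 : 0 < (1 * (φ (C c)).2) * (1 * (φ (C c)).2) := by
        rw [one_mul]; exact mul_self_pos.2 nC
      have h9 : (1 * (φ (C c)).2) * (1 * (φ (C c)).2) =
          (max 0 (min t 1)) * ((φ (C c)).2 * (φ (D d)).2) := by
        nth_rewrite 2 [h3]; ring
      rw [h9] at h8
      nlinarith)
  rw [S_tr cA cC cB hAC0 hAB0 hAC hBC.symm hAB.symm ha hc hb ha1 hc1 hb1,
    S_tr cA cC cD hAC0 hAD0 hAC hCD hAD.symm ha hc hd ha1 hc1 hd1] at key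
  exact key

/-- near a proper crossing, an arc in one of the two curves runs along an axis -/
theorem near {X : ℝ → ℂ} (hX : Continuous X) (φ : OpenPartialHomeomorph ℂ (ℝ × ℝ)) {ε : ℝ}
    (hε : 0 < ε) (hz : X 0 ∈ φ.source) (h0 : φ (X 0) = 0) :
    ∃ a : ℝ, 0 < a ∧ a ≤ 1 ∧ ∀ s, 0 ≤ s → s ≤ a →
      X s ∈ φ.source ∧ φ (X s) ∈ Metric.ball (0 : ℝ × ℝ) ε := by
  have h1 : ∀ᶠ s in nhds (0 : ℝ), X s ∈ φ.source := 
    hX.continuousAt.eventually_mem (φ.open_source.mem_nhds hz)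
  have h2 : ContinuousAt (fun s => φ (X s)) 0 :=
    (φ.continuousAt hz).comp hX.continuousAt
  have h3 : ∀ᶠ s in nhds (0 : ℝ), φ (X s) ∈ Metric.ball (0 : ℝ × ℝ) ε :=
    h2.eventually_mem (Metric.isOpen_ball.mem_nhds (by rw [h0]; exact Metric.mem_ball_self hε))
  obtain ⟨δ, hδ, h4⟩ := Metric.eventually_nhds_iff.1 (h1.and h3)
  refine ⟨min 1 (δ / 2), by positivity, min_le_left _ _, fun s hs hs' => ?_⟩
  apply h4
  rw [Real.dist_eq, sub_zero, abs_of_nonneg hs]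
  have := hs'.trans (min_le_right _ _)
  linarith

/-- two branches of one curve lie on different sides of the crossing point -/
theorem opp {X Y : ℝ → ℂ} (hX : Continuous X) (hY : Continuous Y) (h : Cor X Y)
    (φ : OpenPartialHomeomorph ℂ (ℝ × ℝ)) (p : ℝ × ℝ → ℝ) (hp : Continuous p)
    (hinj : ∀ s t, X s ∈ φ.source → Y t ∈ φ.source → p (φ (X s)) = p (φ (Y t)) →
      0 ≤ s → 0 ≤ t → s ≤ 1 → t ≤ 1 → X s = Y t)
    (h0 : p (φ (X 0)) = 0) (h0' : p (φ (Y 0)) = 0)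
    {a b : ℝ} (ha1 : a ≤ 1) (hb1 : b ≤ 1)
    (fX : ∀ s, 0 ≤ s → s ≤ a → X s ∈ φ.source) (fY : ∀ s, 0 ≤ s → s ≤ b → Y s ∈ φ.source)
    (s t : ℝ) (hs0 : 0 ≤ s) (hs1 : s ≤ a) (ht0 : 0 ≤ t) (ht1 : t ≤ b) :
    p (φ (X s)) * p (φ (Y t)) ≤ 0 := by
  by_contra hcon
  push Not at hcon
  have cX : ContinuousOn (fun s => p (φ (X s))) (Icc 0 s) := by
    apply hp.comp_continuousOn
    apply φ.continuousOn.comp hX.continuousOn
    intro u hu
    exact fX u hu.1 (hu.2.trans hs1)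
  have cY : ContinuousOn (fun s => p (φ (Y s))) (Icc 0 t) := by
    apply hp.comp_continuousOn
    apply φ.continuousOn.comp hY.continuousOn
    intro u hu
    exact fY u hu.1 (hu.2.trans ht1)
  -- a common value
  obtain ⟨w, hw0, u, hu, v, hv, hu', hv'⟩ : ∃ w : ℝ, w ≠ 0 ∧ ∃ u ∈ Icc 0 s, ∃ v ∈ Icc 0 t,
      p (φ (X u)) = w ∧ p (φ (Y v)) = w := by
    rcases pos_and_pos_or_neg_and_neg_of_mul_pos hcon with ⟨h1, h2⟩ | ⟨h1, h2⟩
    · have i1 := intermediate_value_Icc hs0 cX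
      have i2 := intermediate_value_Icc ht0 cY
      simp only [h0, h0'] at i1 i2
      set w := min (p (φ (X s))) (p (φ (Y t))) with hw
      have hwp : 0 < w := lt_min h1 h2
      obtain ⟨u, hu, hu'⟩ := i1 ⟨hwp.le, min_le_left _ _⟩
      obtain ⟨v, hv, hv'⟩ := i2 ⟨hwp.le, min_le_right _ _⟩
      exact ⟨w, hwp.ne', u, hu, v, hv, hu', hv'⟩
    · have i1 := intermediate_value_Icc' hs0 cX
      have i2 := intermediate_value_Icc' ht0 cY
      simp only [h0, h0'] at i1 i2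
      set w := max (p (φ (X s))) (p (φ (Y t))) with hw
      have hwp : w < 0 := max_lt h1 h2
      obtain ⟨u, hu, hu'⟩ := i1 ⟨le_max_left _ _, hwp.le⟩
      obtain ⟨v, hv, hv'⟩ := i2 ⟨le_max_right _ _, hwp.le⟩
      exact ⟨w, hwp.ne, u, hu, v, hv, hu', hv'⟩
  have h1 := hinj u v (fX u hu.1 (hu.2.trans hs1)) (fY v hv.1 (hv.2.trans ht1))
    (hu'.trans hv'.symm) hu.1 hv.1 (by linarith [hu.2]) (by linarith [hv.2])
  have h2 := (h _ _ h1).1
  have h3 : u = 0 := le_antisymm h2 hu.1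
  rw [h3, h0] at hu'
  exact hw0 hu'.symm

/-- at a proper crossing of two curves, the two branches `C`, `D` of the second curve lie on
different sides of the first curve, with branches `A`, `B` -/
theorem crossing_sign {A B C D : ℝ → ℂ} (cA : Continuous A) (cB : Continuous B)
    (cC : Continuous C) (cD : Continuous D) (hAB0 : A 0 = B 0) (hAC0 : A 0 = C 0)
    (hAD0 : A 0 = D 0) (hAB : Cor A B) (hAC : Cor A C) (hAD : Cor A D) (hBC : Cor B C)
    (hBD : Cor B D) (hCD : Cor C D) (p q : Set ℂ) (φ : OpenPartialHomeomorph ℂ (ℝ × ℝ))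
    (hz : A 0 ∈ φ.source) (hz0 : φ (A 0) = (0, 0))
    (hφ : ∀ w ∈ φ.source, (w ∈ p ↔ (φ w).2 = 0) ∧ (w ∈ q ↔ (φ w).1 = 0))
    (mA : ∀ s, 0 ≤ s → s ≤ 1 → A s ∈ p) (mB : ∀ s, 0 ≤ s → s ≤ 1 → B s ∈ p)
    (mC : ∀ s, 0 ≤ s → s ≤ 1 → C s ∈ q) (mD : ∀ s, 0 ≤ s → s ≤ 1 → D s ∈ q) :
    S A B D = - S A B C ∧ S A C D = - S A B C := by
  have hz0' : φ (A 0) = 0 := hz0
  obtain ⟨ε, hε, hball⟩ := Metric.isOpen_iff.1 φ.open_target 0 (by
    rw [← hz0']; exact φ.map_source hz)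
  obtain ⟨a, ha, ha1, fa⟩ := near cA φ hε hz hz0'
  obtain ⟨b, hb, hb1, fb⟩ := near cB φ hε (by rw [← hAB0]; exact hz) (by rw [← hAB0]; exact hz0')
  obtain ⟨c, hc, hc1, fc⟩ := near cC φ hε (by rw [← hAC0]; exact hz) (by rw [← hAC0]; exact hz0')
  obtain ⟨d, hd, hd1, fd⟩ := near cD φ hε (by rw [← hAD0]; exact hz) (by rw [← hAD0]; exact hz0')
  have fA : ∀ s, 0 ≤ s → s ≤ a → A s ∈ φ.source ∧ φ (A s) ∈ Metric.ball (0 : ℝ × ℝ) ε ∧
      (φ (A s)).2 = 0 := fun s h0 h1 => ⟨(fa s h0 h1).1, (fa s h0 h1).2,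
        (hφ _ (fa s h0 h1).1).1.1 (mA s h0 (h1.trans ha1))⟩
  have fB : ∀ s, 0 ≤ s → s ≤ b → B s ∈ φ.source ∧ φ (B s) ∈ Metric.ball (0 : ℝ × ℝ) ε ∧
      (φ (B s)).2 = 0 := fun s h0 h1 => ⟨(fb s h0 h1).1, (fb s h0 h1).2,
        (hφ _ (fb s h0 h1).1).1.1 (mB s h0 (h1.trans hb1))⟩
  have fC : ∀ s, 0 ≤ s → s ≤ c → C s ∈ φ.source ∧ φ (C s) ∈ Metric.ball (0 : ℝ × ℝ) ε ∧
      (φ (C s)).1 = 0 := fun s h0 h1 => ⟨(fc s h0 h1).1, (fc s h0 h1).2,
        (hφ _ (fc s h0 h1).1).2.1 (mC s h0 (h1.trans hc1))⟩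
  have fD : ∀ s, 0 ≤ s → s ≤ d → D s ∈ φ.source ∧ φ (D s) ∈ Metric.ball (0 : ℝ × ℝ) ε ∧
      (φ (D s)).1 = 0 := fun s h0 h1 => ⟨(fd s h0 h1).1, (fd s h0 h1).2,
        (hφ _ (fd s h0 h1).1).2.1 (mD s h0 (h1.trans hd1))⟩
  have gAB : ∀ s t, 0 ≤ s → s ≤ a → 0 ≤ t → t ≤ b → (φ (A s)).1 * (φ (B t)).1 ≤ 0 := by
    intro s t h1 h2 h3 h4
    refine opp cA cB hAB φ Prod.fst continuous_fst ?_ (by rw [hz0]) (by rw [← hAB0, hz0]) ha1
      hb1 (fun s h0 h1 => (fa s h0 h1).1) (fun s h0 h1 => (fb s h0 h1).1) s t h1 h2 h3 h4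
    intro u v hu hv huv u0 v0 u1 v1
    apply φ.injOn hu hv
    apply Prod.ext huv
    rw [(hφ _ hu).1.1 (mA u u0 u1), (hφ _ hv).1.1 (mB v v0 v1)]
  have gCD : ∀ s t, 0 ≤ s → s ≤ c → 0 ≤ t → t ≤ d → (φ (C s)).2 * (φ (D t)).2 ≤ 0 := by
    intro s t h1 h2 h3 h4
    refine opp cC cD hCD φ Prod.snd continuous_snd ?_ (by rw [← hAC0, hz0])
      (by rw [← hAD0, hz0]) hc1
      hd1 (fun s h0 h1 => (fc s h0 h1).1) (fun s h0 h1 => (fd s h0 h1).1) s t h1 h2 h3 h4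
    intro u v hu hv huv u0 v0 u1 v1
    apply φ.injOn hu hv
    refine Prod.ext ?_ huv
    rw [(hφ _ hu).2.1 (mC u u0 u1), (hφ _ hv).2.1 (mD v v0 v1)]
  have ne0 : ∀ {X Y : ℝ → ℂ} {x : ℝ}, Cor X Y → X 0 = Y 0 → A 0 = X 0 → 0 < x →
      X x ∈ φ.source → φ (X x) ≠ 0 := by
    intro X Y x hXY h0 hAX hx hs h1
    have h2 : X x = A 0 := φ.injOn hs hz (h1.trans hz0'.symm)
    have h3 := (hXY x 0 (by rw [h2, hAX, h0])).1
    linarith
  have nA : (φ (A a)).1 ≠ 0 := by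
    intro h
    exact ne0 hAB hAB0 rfl ha (fa a ha.le le_rfl).1 (Prod.ext h (fA a ha.le le_rfl).2.2)
  have nB : (φ (B b)).1 ≠ 0 := by
    intro h
    exact ne0 hAB.symm hAB0.symm hAB0 hb (fb b hb.le le_rfl).1 (Prod.ext h (fB b hb.le le_rfl).2.2)
  have nC : (φ (C c)).2 ≠ 0 := by
    intro h
    exact ne0 hAC.symm hAC0.symm hAC0 hc (fc c hc.le le_rfl).1 (Prod.ext (fC c hc.le le_rfl).2.2 h)
  have nD : (φ (D d)).2 ≠ 0 := by
    intro h
    exact ne0 hAD.symm hAD0.symm hAD0 hd (fd d hd.le le_rfl).1 (Prod.ext (fD d hd.le le_rfl).2.2 h)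
  have k1 := half cA cB cC cD hAB0 hAC0 hAD0 hAB hAC hAD hBC hCD φ hball ha hb hc hd ha1 hb1 hc1
    hd1 fA fB fC fD gAB gCD nA nB nC nD
  have k2 := half cB cA cC cD hAB0.symm (hAB0.symm.trans hAC0) (hAB0.symm.trans hAD0) hAB.symm hBC
    hBD hAC hCD φ hball hb ha hc hd hb1 ha1 hc1
    hd1 fB fA fC fD (fun s t h1 h2 h3 h4 => by rw [mul_comm]; exact gAB t s h3 h4 h1 h2) gCD nB nA
    nC nD
  rw [S_swap] at k1
  rw [S_rot A B C] at k2
  have k3 := S_cocycle A B C D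
  constructor
  · linear_combination -k3 - k1 + k2
  · linear_combination -k1

/-- the relation between the orientations at the two ends of three paths -/
theorem theta {e₁ e₂ e₃ f₁ f₂ f₃ : ℝ → ℂ} (ce₁ : Continuous e₁) (ce₂ : Continuous e₂)
    (ce₃ : Continuous e₃) (cf₁ : Continuous f₁) (cf₂ : Continuous f₂) (cf₃ : Continuous f₃)
    (e12 : e₁ 0 = e₂ 0) (e13 : e₁ 0 = e₃ 0) (f12 : f₁ 0 = f₂ 0) (f13 : f₁ 0 = f₃ 0)
    (m1 : e₁ 1 = f₁ 1) (m2 : e₂ 1 = f₂ 1) (m3 : e₃ 1 = f₃ 1)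
    (d12 : ∀ s t, e₁ s ≠ f₂ t) (d13 : ∀ s t, e₁ s ≠ f₃ t) (d21 : ∀ s t, e₂ s ≠ f₁ t)
    (d23 : ∀ s t, e₂ s ≠ f₃ t) (d31 : ∀ s t, e₃ s ≠ f₁ t) (d32 : ∀ s t, e₃ s ≠ f₂ t) :
    S e₁ e₂ e₃ = - S f₁ f₂ f₃ := by
  have q12 := R ce₁ cf₂ d12
  have q13 := R ce₁ cf₃ d13
  have q21 := R ce₂ cf₁ d21
  have q23 := R ce₂ cf₃ d23
  have q31 := R ce₃ cf₁ d31
  have q32 := R ce₃ cf₂ d32
  rw [← e12] at q21 q23
  rw [← e13] at q31 q32
  rw [← f12] at q12 q32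
  rw [← f13] at q13 q23
  rw [m1] at q12 q13
  rw [m2] at q21 q23
  rw [m3] at q31 q32
  unfold S
  simp only [beta_al]
  rw [m1, m2, m3]
  linear_combination -q12 + q21 - q23 + q32 - q31 + q13

end Pool.Agent.H858R3.Cross
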