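import Pool.Agent.H858R3.PolyDraw

/-!
# Thirty weak isomorphism classes
-/

set_option autoImplicit false

namespace Pool.Agent.H858R3.Lower

open Pool.Agent.H858R3.Poly Pool.Agent.H858R3.TopoGraph Pool.Agent.H858R3.PolyDraw

/-- thirty drawings of `H` -/
def data : Fin 30 → Data :=
  ![⟨![(2, 6), (3, 1), (4, 0), (2, 0), (5, 11)], ![[], [], [], [], [], [], []]⟩,
    ⟨![(8, 5), (10, 1), (9, 7), (10, 10), (8, 0)], ![[], [], [], [], [], [], []]⟩,
    ⟨![(3, 2), (10, 2), (6, 4), (5, 3), (11, 1)], ![[], [], [], [], [], [(7, 7)], []]⟩,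
    ⟨![(4, 6), (8, 9), (4, 0), (7, 3), (3, 9)], ![[], [], [], [], [], [], []]⟩,
    ⟨![(1, 3), (2, 9), (5, 4), (2, 7), (0, 4)], ![[], [], [(11, 2)], [], [], [], []]⟩,
    ⟨![(4, 10), (9, 1), (3, 4), (1, 3), (3, 9)], ![[], [], [], [], [], [], []]⟩,
    ⟨![(8, 1), (7, 10), (9, 7), (5, 7), (5, 5)], ![[], [], [], [], [], [], []]⟩,
    ⟨![(0, 10), (5, 9), (9, 8), (8, 1), (6, 9)], ![[], [], [(11, 8)], [], [], [], []]⟩,
    ⟨![(1, 9), (7, 11), (3, 4), (7, 1), (5, 8)], ![[], [], [], [], [], [], []]⟩,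
    ⟨![(2, 10), (10, 0), (4, 5), (7, 1), (9, 9)], ![[], [], [], [], [], [], []]⟩,
    ⟨![(3, 7), (2, 11), (4, 5), (9, 10), (10, 1)], ![[], [], [], [], [], [], []]⟩,
    ⟨![(7, 9), (0, 8), (5, 5), (2, 0), (2, 5)], ![[], [], [], [], [], [], []]⟩,
    ⟨![(0, 2), (3, 5), (0, 6), (3, 11), (2, 7)], ![[], [], [], [(9, 8)], [], [], []]⟩,
    ⟨![(11, 4), (7, 4), (11, 1), (8, 1), (9, 3)], ![[], [], [], [(4, 5)], [], [], []]⟩,
    ⟨![(9, 10), (3, 10), (1, 11), (6, 2), (5, 5)], ![[], [], [], [], [], [], []]⟩,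
    ⟨![(3, 10), (7, 4), (1, 4), (3, 8), (11, 5)], ![[], [], [], [], [], [], []]⟩,
    ⟨![(6, 2), (1, 10), (4, 11), (7, 5), (0, 5)], ![[], [], [], [], [], [], []]⟩,
    ⟨![(11, 2), (5, 5), (7, 7), (4, 5), (1, 2)], ![[], [], [], [], [], [], []]⟩,
    ⟨![(2, 9), (11, 9), (5, 11), (8, 4), (7, 5)], ![[], [], [], [], [], [], [(10, 1)]]⟩,
    ⟨![(5, 4), (7, 6), (4, 9), (1, 11), (4, 0)], ![[], [], [], [], [], [], []]⟩,
    ⟨![(2, 10), (11, 7), (10, 3), (1, 2), (2, 6)], ![[], [], [], [], [], [], [(1, 11)]]⟩,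
    ⟨![(5, 6), (7, 5), (3, 2), (7, 2), (11, 4)], ![[], [], [], [], [], [], []]⟩,
    ⟨![(9, 11), (11, 2), (4, 5), (7, 7), (11, 6)], ![[], [], [(0, 2)], [], [], [], []]⟩,
    ⟨![(11, 9), (0, 11), (11, 8), (4, 5), (4, 6)], ![[], [], [], [], [], [], [(3, 3)]]⟩,
    ⟨![(3, 9), (5, 8), (0, 10), (8, 11), (11, 10)], ![[], [], [], [(11, 1)], [], [], []]⟩,
    ⟨![(10, 8), (5, 7), (2, 9), (4, 6), (6, 6)], ![[], [], [], [], [(11, 8)], [], []]⟩,
    ⟨![(8, 9), (7, 5), (9, 10), (8, 11), (2, 9)], ![[], [], [], [], [], [], []]⟩,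
    ⟨![(4, 7), (8, 4), (7, 5), (1, 0), (1, 5)], ![[], [], [], [], [], [(5, 10)], []]⟩,
    ⟨![(0, 1), (8, 5), (4, 4), (10, 0), (10, 4)], ![[], [], [(11, 8)], [], [], [], []]⟩,
    ⟨![(0, 3), (0, 10), (3, 0), (4, 0), (11, 4)], ![[], [], [], [], [], [], []]⟩]

/-- the crossings of the thirty drawings -/
def mask : Fin 30 → ℕ :=
  ![0, 1, 3, 4, 5, 8, 9, 10, 12, 13, 20, 28, 44, 60, 64, 65, 67, 72, 73, 74, 75, 76, 77, 84, 88, 92, 104, 105, 109, 124]

/-- the pairs of independent edges -/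
def pI : Fin 7 → Fin 7 := ![0, 1, 2, 2, 3, 3, 5]
def pJ : Fin 7 → Fin 7 := ![6, 5, 4, 6, 4, 5, 6]

theorem chk_ok : ∀ k : Fin 30, (data k).okB = true := by decide +kernel

theorem chk_mask : ∀ (k : Fin 30) (m : Fin 7),
    (indep (pI m) (pJ m) && (data k).X (pI m) (pJ m)) = (mask k).testBit m := by decide +kernel

/-- the non-trivial automorphism of `H` -/
def σ : Fin 5 → Fin 5 := ![0, 2, 1, 4, 3]

/-- its action on the pairs of independent edges -/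
def tm : Fin 7 → Fin 7 := ![1, 0, 4, 5, 2, 3, 6]

theorem chk_sigma : ∀ m : Fin 7,
    ((s(σ (eu (pI m)), σ (ev (pI m))) : Sym2 (Fin 5)) = s(eu (pI (tm m)), ev (pI (tm m))) ∧
      (s(σ (eu (pJ m)), σ (ev (pJ m))) : Sym2 (Fin 5)) = s(eu (pJ (tm m)), ev (pJ (tm m)))) ∨
    ((s(σ (eu (pI m)), σ (ev (pI m))) : Sym2 (Fin 5)) = s(eu (pJ (tm m)), ev (pJ (tm m))) ∧
      (s(σ (eu (pJ m)), σ (ev (pJ m))) : Sym2 (Fin 5)) = s(eu (pI (tm m)), ev (pI (tm m)))) := by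
  decide +kernel

theorem chk_ne : ∀ k l : Fin 30, k ≠ l →
    (∃ m : Fin 7, (mask k).testBit m ≠ (mask l).testBit m) ∧
      (∃ m : Fin 7, (mask k).testBit m ≠ (mask l).testBit (tm m)) := by decide +kernel

/-- adjacency in `H` -/
def adj (u v : Fin 5) : Bool := decide (∃ i : Fin 7, (s(u, v) : Sym2 (Fin 5)) = s(eu i, ev i))

theorem chk_aut : ∀ a b c d e : Fin 5, adj a b = true → adj a c = true → adj a d = true →
    adj a e = true → adj b c = true → adj b d = true → adj c e = true → b ≠ e → c ≠ d → d ≠ e →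
    (a = 0 ∧ b = 1 ∧ c = 2 ∧ d = 3 ∧ e = 4) ∨ (a = 0 ∧ b = 2 ∧ c = 1 ∧ d = 4 ∧ e = 3) := by
  decide +kernel

theorem adj_iff {u v : Fin 5} : adj u v = true ↔ H.Adj u v := by
  unfold adj
  rw [decide_eq_true_eq]
  exact Iff.rfl

theorem aut (φ : H ≃g H) : (∀ v, φ v = v) ∨ (∀ v, φ v = σ v) := by
  have h : ∀ u v, adj u v = true → adj (φ u) (φ v) = true := fun u v huv =>
    adj_iff.2 (φ.map_rel_iff.2 (adj_iff.1 huv))
  have hne : ∀ u v, u ≠ v → φ u ≠ φ v := fun u v huv h => huv (φ.injective h)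
  have := chk_aut (φ 0) (φ 1) (φ 2) (φ 3) (φ 4) (h _ _ (by decide +kernel))
    (h _ _ (by decide +kernel)) (h _ _ (by decide +kernel)) (h _ _ (by decide +kernel))
    (h _ _ (by decide +kernel)) (h _ _ (by decide +kernel)) (h _ _ (by decide +kernel))
    (hne _ _ (by decide)) (hne _ _ (by decide)) (hne _ _ (by decide))
  rcases this with ⟨h0, h1, h2, h3, h4⟩ | ⟨h0, h1, h2, h3, h4⟩
  · left
    intro v
    fin_cases v
    · exact h0
    · exact h1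
    · exact h2
    · exact h3
    · exact h4
  · right
    intro v
    fin_cases v
    · exact h0
    · exact h1
    · exact h2
    · exact h3
    · exact h4

/-- the thirty drawings -/
noncomputable def D (k : Fin 30) : SimpleTopGraph H := draw (ok_of_okB (chk_ok k))

theorem D_cross (k : Fin 30) (m : Fin 7) :
    (D k).Cross s(eu (pI m), ev (pI m)) s(eu (pJ m), ev (pJ m)) ↔ (mask k).testBit m = true := by
  unfold D
  rw [draw_cross, chk_mask]

theorem not_iso {k l : Fin 30} (hkl : k ≠ l) : ¬ WeakIso (D k) (D l) := by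
  rintro ⟨φ, h⟩
  obtain ⟨⟨m, hm⟩, ⟨m', hm'⟩⟩ := chk_ne k l hkl
  rcases aut φ with hφ | hφ
  · have h1 := h _ (mem_edge.2 ⟨pI m, rfl⟩) _ (mem_edge.2 ⟨pJ m, rfl⟩)
    rw [Sym2.map_mk, Sym2.map_mk] at h1
    simp only [Prod.map, hφ] at h1
    rw [D_cross, D_cross] at h1
    apply hm
    rw [Bool.eq_iff_iff]
    exact h1
  · have h1 := h _ (mem_edge.2 ⟨pI m', rfl⟩) _ (mem_edge.2 ⟨pJ m', rfl⟩)
    rw [Sym2.map_mk, Sym2.map_mk] at h1
    simp only [Prod.map, hφ] at h1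
    apply hm'
    rw [Bool.eq_iff_iff, ← D_cross, ← D_cross]
    rw [h1]
    rcases chk_sigma m' with ⟨h2, h3⟩ | ⟨h2, h3⟩
    · rw [h2, h3]
    · rw [h2, h3]; exact SimpleTopGraph.cross_comm

theorem lower : 30 ≤ Tw H := by
  haveI := finite_quotient H
  have hinj : Function.Injective
      (fun k : Fin 30 => (Quotient.mk (weakSetoid H) (D k) : Quotient (weakSetoid H))) := by
    intro k l hkl
    by_contra hne
    exact not_iso hne (Quotient.exact hkl)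
  have := Nat.card_le_card_of_injective _ hinj
  rw [Nat.card_eq_fintype_card, Fintype.card_fin] at this
  exact this

end Pool.Agent.H858R3.Lower
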