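import Pool.Agent.H858R3.TopoGraph
import Pool.Agent.H858R3.Poly

/-!
# Simple topological graphs drawn with polygonal lines
-/

set_option autoImplicit false

namespace Pool.Agent.H858R3.PolyDraw

open Complex Set Pool.Agent.H858R3.Poly Pool.Agent.H858R3.TopoGraph

/-- the segments of a polygonal line -/
def segs : P → List P → List (P × P)
  | _, [] => []
  | p, q :: l => (p, q) :: segs q l

/-- the union of a list of segments -/
def arcL (L : List (P × P)) : Set ℂ := {z | ∃ s ∈ L, z ∈ sg s}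

def headOK (p q : P) : List (P × P) → Bool
  | [] => true
  | t :: L => cornerAt q (p, q) t && L.all (fun t => disj (p, q) t)

/-- the polygonal line has no self-intersection -/
def good : P → List P → Bool
  | _, [] => true
  | p, q :: l => decide (p ≠ q) && headOK p q (segs q l) && good q l

def lastP : P → List P → P
  | p, [] => p
  | _, q :: l => lastP q l

theorem lastP_append (p : P) (l : List P) (q : P) : lastP p (l ++ [q]) = q := by
  induction l generalizing p with
  | nil => rfl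
  | cons r l ih => exact ih r

theorem arc_of_good (l : List P) : ∀ p q : P, good p (q :: l) = true →
    ∃ γ : Path (cp p) (cp (lastP p (q :: l))), Function.Injective γ ∧
      range γ = arcL (segs p (q :: l)) := by
  induction l with
  | nil =>
    intro p q h
    simp only [good, Bool.and_eq_true, decide_eq_true_eq] at h
    obtain ⟨γ, h1, h2⟩ := arc_seg (fun e => h.1.1 (cp_inj e) : cp p ≠ cp q)
    refine ⟨γ, h1, h2.trans ?_⟩
    ext z
    simp [arcL, segs, sg]
  | cons r l ih =>
    intro p q h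
    have h' := h
    unfold good at h'
    simp only [Bool.and_eq_true, decide_eq_true_eq] at h'
    obtain ⟨⟨h1, h2⟩, h3⟩ := h'
    have ih' := ih q r h3
    have h4 := arc_append (arc_seg (fun e => h1 (cp_inj e) : cp p ≠ cp q)) ih' (by
      rintro z ⟨hz1, s, hs, hz2⟩
      simp only [segs, headOK, Bool.and_eq_true, List.all_eq_true] at h2
      simp only [segs, List.mem_cons] at hs
      rcases hs with rfl | hs
      · exact corner_sound h2.1 ⟨hz1, hz2⟩
      · exact absurd hz2 (Set.disjoint_left.1 (disj_sound (h2.2 s hs)) hz1))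
    obtain ⟨γ, g1, g2⟩ := h4
    refine ⟨γ, g1, g2.trans ?_⟩
    ext z
    simp only [arcL, segs, List.mem_cons, sg, Set.mem_union, Set.mem_ofPred_eq, exists_eq_or_imp]

/-! ### The graph with seven edges -/

/-- the first ends of the seven edges -/
def eu : Fin 7 → Fin 5 := ![0, 0, 0, 0, 1, 1, 2]

/-- the second ends -/
def ev : Fin 7 → Fin 5 := ![1, 2, 3, 4, 2, 3, 4]

/-- the graph with edges `01, 02, 03, 04, 12, 13, 24` -/
def H : SimpleGraph (Fin 5) where
  Adj u v := ∃ i : Fin 7, s(u, v) = s(eu i, ev i)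
  symm := ⟨by
    rintro u v ⟨i, h⟩
    exact ⟨i, by rw [Sym2.eq_swap]; exact h⟩⟩
  loopless := ⟨by
    rintro u ⟨i, h⟩
    have h1 : (s(eu i, ev i) : Sym2 (Fin 5)).IsDiag := by rw [← h]; simp
    rw [Sym2.mk_isDiag_iff] at h1
    clear h
    revert h1
    revert i
    decide⟩

theorem mem_edge {e : Sym2 (Fin 5)} : e ∈ H.edgeSet ↔ ∃ i, e = s(eu i, ev i) := by
  induction e with
  | _ u v => exact Iff.rfl

theorem edge_inj : ∀ i j : Fin 7, (s(eu i, ev i) : Sym2 (Fin 5)) = s(eu j, ev j) → i = j := by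
  decide +kernel

/-- the two edges have no common end -/
def indep (i j : Fin 7) : Bool :=
  decide (eu i ≠ eu j) && decide (eu i ≠ ev j) && decide (ev i ≠ eu j) && decide (ev i ≠ ev j)

/-- the data of a drawing of `H`: the points of the vertices and the bends of the edges -/
structure Data where
  pos : Fin 5 → P
  bends : Fin 7 → List P

/-- the segments of an edge -/
def Data.L (d : Data) (i : Fin 7) : List (P × P) := segs (d.pos (eu i)) (d.bends i ++ [d.pos (ev i)])

/-- two segments of the two edges cross -/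
def Data.X (d : Data) (i j : Fin 7) : Bool := (d.L i).any fun s => (d.L j).any fun t => cross s t

def Data.selfOK (d : Data) : Prop :=
  ∀ i, good (d.pos (eu i)) (d.bends i ++ [d.pos (ev i)]) = true ∧
    ∀ s ∈ d.L i, s.1 ≠ s.2 ∧ ∀ s' ∈ d.L i, s ≠ s' → sep s s' = true

def Data.avoidOK (d : Data) : Prop :=
  ∀ (i : Fin 7) (w : Fin 5), w ≠ eu i → w ≠ ev i → ∀ s ∈ d.L i, os s (d.pos w) ≠ 0

def Data.adjOK (d : Data) (i j : Fin 7) : Prop :=
  ∃ w : Fin 5, (w = eu i ∨ w = ev i) ∧ (w = eu j ∨ w = ev j) ∧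
    ∀ s ∈ d.L i, ∀ t ∈ d.L j, disj s t = true ∨ cornerAt (d.pos w) s t = true

def Data.indOK (d : Data) (i j : Fin 7) : Prop :=
  indep i j = true ∧ (∀ s ∈ d.L i, ∀ t ∈ d.L j, disj s t = true ∨ cross s t = true) ∧
    ∀ s ∈ d.L i, ∀ t ∈ d.L j, ∀ s' ∈ d.L i, ∀ t' ∈ d.L j, cross s t = true → cross s' t' = true →
      s = s' ∧ t = t'

def Data.OK (d : Data) : Prop :=
  (∀ u v, d.pos u = d.pos v → u = v) ∧ d.selfOK ∧ d.avoidOK ∧
    ∀ i j, i ≠ j → d.adjOK i j ∨ d.indOK i j

def Data.selfB (d : Data) (i : Fin 7) : Bool :=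
  good (d.pos (eu i)) (d.bends i ++ [d.pos (ev i)]) &&
    (d.L i).all fun s => decide (s.1 ≠ s.2) && (d.L i).all fun s' => decide (s = s') || sep s s'

def Data.avoidB (d : Data) (i : Fin 7) (w : Fin 5) : Bool :=
  decide (w = eu i) || decide (w = ev i) || (d.L i).all fun s => decide (os s (d.pos w) ≠ 0)

def Data.adjB (d : Data) (i j : Fin 7) (w : Fin 5) : Bool :=
  (decide (w = eu i) || decide (w = ev i)) && (decide (w = eu j) || decide (w = ev j)) &&
    (d.L i).all fun s => (d.L j).all fun t => disj s t || cornerAt (d.pos w) s t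

def Data.indB (d : Data) (i j : Fin 7) : Bool :=
  indep i j && ((d.L i).all fun s => (d.L j).all fun t => disj s t || cross s t) &&
    (d.L i).all fun s => (d.L j).all fun t => (d.L i).all fun s' => (d.L j).all fun t' =>
      !(cross s t) || !(cross s' t') || (decide (s = s') && decide (t = t'))

/-- the check -/
def Data.okB (d : Data) : Bool :=
  decide (∀ u v, d.pos u = d.pos v → u = v) && decide (∀ i, d.selfB i = true) &&
    decide (∀ i w, d.avoidB i w = true) &&
    decide (∀ i j, i ≠ j → (∃ w, d.adjB i j w = true) ∨ d.indB i j = true)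

theorem ok_of_okB {d : Data} (h : d.okB = true) : d.OK := by
  simp only [Data.okB, Bool.and_eq_true, decide_eq_true_eq] at h
  obtain ⟨⟨⟨h1, h2⟩, h3⟩, h4⟩ := h
  refine ⟨h1, ?_, ?_, ?_⟩
  · intro i
    have := h2 i
    simp only [Data.selfB, Bool.and_eq_true, List.all_eq_true, decide_eq_true_eq,
      Bool.or_eq_true] at this
    refine ⟨this.1, fun s hs => ⟨(this.2 s hs).1, fun s' hs' hne => ?_⟩⟩
    exact ((this.2 s hs).2 s' hs').resolve_left hne
  · intro i w hw1 hw2
    have := h3 i w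
    simp only [Data.avoidB, Bool.or_eq_true, List.all_eq_true, decide_eq_true_eq] at this
    rcases this with (this | this) | this
    · exact absurd this hw1
    · exact absurd this hw2
    · exact this
  · intro i j hij
    rcases h4 i j hij with ⟨w, hw⟩ | hw
    · left
      simp only [Data.adjB, Bool.and_eq_true, List.all_eq_true, decide_eq_true_eq,
        Bool.or_eq_true] at hw
      exact ⟨w, hw.1.1, hw.1.2, hw.2⟩
    · right
      simp only [Data.indB, Bool.and_eq_true, List.all_eq_true, decide_eq_true_eq,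
        Bool.or_eq_true, Bool.not_eq_true'] at hw
      refine ⟨hw.1.1, hw.1.2, ?_⟩
      intro s hs t ht s' hs' t' ht' hc hc'
      rcases hw.2 s hs t ht s' hs' t' ht' with (h5 | h5) | h5
      · rw [h5] at hc; exact absurd hc (by simp)
      · rw [h5] at hc'; exact absurd hc' (by simp)
      · exact h5

theorem arcOf_toFinset (L : List (P × P)) : arcOf L.toFinset = arcL L := by
  ext z
  simp [arcOf, arcL]

section

variable {d : Data} (h : d.OK)

/-- the arcs of the drawing -/
def theArc (d : Data) (e : Sym2 (Fin 5)) : Set ℂ :=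
  {z | ∃ i : Fin 7, e = s(eu i, ev i) ∧ z ∈ arcL (d.L i)}

theorem theArc_eq (d : Data) (i : Fin 7) : theArc d s(eu i, ev i) = arcL (d.L i) := by
  ext z
  constructor
  · rintro ⟨j, hj, hz⟩
    rw [edge_inj i j hj]; exact hz
  · intro hz; exact ⟨i, rfl, hz⟩

include h

theorem arc_i (i : Fin 7) : IsArc (arcL (d.L i)) (cp (d.pos (eu i))) (cp (d.pos (ev i))) := by
  have h1 := (h.2.1 i).1
  unfold Data.L
  have key : ∀ (p : P) (l : List P) (q : P), good p (l ++ [q]) = true →
      IsArc (arcL (segs p (l ++ [q]))) (cp p) (cp q) := by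
    intro p l q hg
    cases l with
    | nil =>
      obtain ⟨γ, g1, g2⟩ := arc_of_good [] p q hg
      exact ⟨γ, g1, g2⟩
    | cons r l =>
      obtain ⟨γ, g1, g2⟩ := arc_of_good (l ++ [q]) p r hg
      have e : lastP p (r :: (l ++ [q])) = q := lastP_append r l q
      rw [show (r :: l ++ [q]) = r :: (l ++ [q]) from rfl, ← g2]
      refine ⟨γ.cast rfl (by rw [e]), ?_, ?_⟩
      · exact g1
      · rfl
  exact key _ _ _ h1

theorem avoid_i {i : Fin 7} {w : Fin 5} (hw : cp (d.pos w) ∈ arcL (d.L i)) :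
    w = eu i ∨ w = ev i := by
  by_contra hcon
  push Not at hcon
  obtain ⟨s, hs, hz⟩ := hw
  apply h.2.2.1 i w hcon.1 hcon.2 s hs
  have := orr_seg hz
  rw [orr_cp] at this
  unfold os
  exact_mod_cast this

omit h in
theorem adj_sub {i j : Fin 7} (hij : d.adjOK i j) :
    ∃ w : Fin 5, (w = eu i ∨ w = ev i) ∧ (w = eu j ∨ w = ev j) ∧
      arcL (d.L i) ∩ arcL (d.L j) ⊆ {cp (d.pos w)} := by
  obtain ⟨w, h1, h2, h3⟩ := hij
  refine ⟨w, h1, h2, ?_⟩
  rintro z ⟨⟨s, hs, hzs⟩, ⟨t, ht, hzt⟩⟩
  rcases h3 s hs t ht with h4 | h4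
  · exact absurd hzt (Set.disjoint_left.1 (disj_sound h4) hzs)
  · exact corner_sound h4 ⟨hzs, hzt⟩

omit h in
theorem ind_cross {i j : Fin 7} (hij : d.indOK i j) {z : ℂ} (hz : z ∈ arcL (d.L i) ∩ arcL (d.L j)) :
    ∃ s ∈ d.L i, ∃ t ∈ d.L j, cross s t = true ∧ z ∈ sg s ∧ z ∈ sg t := by
  obtain ⟨⟨s, hs, hzs⟩, ⟨t, ht, hzt⟩⟩ := hz
  rcases hij.2.1 s hs t ht with h4 | h4
  · exact absurd hzt (Set.disjoint_left.1 (disj_sound h4) hzs)
  · exact ⟨s, hs, t, ht, h4, hzs, hzt⟩

omit h in
theorem ind_sub {i j : Fin 7} (hij : d.indOK i j) :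
    (arcL (d.L i) ∩ arcL (d.L j)).Subsingleton := by
  intro z hz z' hz'
  obtain ⟨s, hs, t, ht, h4, hzs, hzt⟩ := ind_cross hij hz
  obtain ⟨s', hs', t', ht', h4', hzs', hzt'⟩ := ind_cross hij hz'
  obtain ⟨rfl, rfl⟩ := hij.2.2 s hs t ht s' hs' t' ht' h4 h4'
  obtain ⟨z0, h5, -⟩ := cross_sound h4
  have e1 : z ∈ sg s ∩ sg t := ⟨hzs, hzt⟩
  have e2 : z' ∈ sg s ∩ sg t := ⟨hzs', hzt'⟩
  rw [h5] at e1 e2
  rw [Set.mem_singleton_iff.1 e1, Set.mem_singleton_iff.1 e2]

/-- the drawing with the given data -/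
noncomputable def draw : SimpleTopGraph H where
  pt v := cp (d.pos v)
  arc := theArc d
  pt_inj u v huv := h.1 u v (cp_inj huv)
  isArc := by
    rintro u v ⟨i, hi⟩
    rw [hi, theArc_eq]
    rw [Sym2.eq_iff] at hi
    rcases hi with ⟨h1, h2⟩ | ⟨h1, h2⟩
    · rw [h1, h2]; exact arc_i h i
    · rw [h1, h2]
      obtain ⟨γ, hγ, hr⟩ := arc_i h i
      exact ⟨γ.symm, fun s t hst => unitInterval.symm_bijective.1 (hγ hst), by
        rw [Path.symm_range]; exact hr⟩
  avoid := by
    intro e he w hw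
    obtain ⟨i, rfl⟩ := mem_edge.1 he
    rw [theArc_eq] at hw
    rw [Sym2.mem_iff]
    exact avoid_i h hw
  common := by
    intro e he f hf hef
    obtain ⟨i, rfl⟩ := mem_edge.1 he
    obtain ⟨j, rfl⟩ := mem_edge.1 hf
    have hij : i ≠ j := fun hh => hef (by rw [hh])
    rw [theArc_eq, theArc_eq]
    rcases h.2.2.2 i j hij with h1 | h1
    · obtain ⟨w, -, -, h2⟩ := adj_sub h1
      exact Set.subsingleton_singleton.anti h2
    · exact ind_sub h1
  proper := by
    intro e he f hf hef z hz hzn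
    obtain ⟨i, rfl⟩ := mem_edge.1 he
    obtain ⟨j, rfl⟩ := mem_edge.1 hf
    have hij : i ≠ j := fun hh => hef (by rw [hh])
    rw [theArc_eq, theArc_eq] at hz ⊢
    rcases h.2.2.2 i j hij with h1 | h1
    · obtain ⟨w, -, -, h2⟩ := adj_sub h1
      exact absurd ⟨w, (h2 hz).symm⟩ hzn
    · obtain ⟨s, hs, t, ht, h4, hzs, hzt⟩ := ind_cross h1 hz
      rw [← arcOf_toFinset, ← arcOf_toFinset]
      exact proper_sound (l := (d.L i).toFinset) (m := (d.L j).toFinset)
        (by
          intro s hs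
          rw [List.mem_toFinset] at hs
          obtain ⟨h5, h6⟩ := (h.2.1 i).2 s hs
          exact ⟨h5, fun s' hs' => h6 s' (List.mem_toFinset.1 hs')⟩)
        (by
          intro s hs
          rw [List.mem_toFinset] at hs
          obtain ⟨h5, h6⟩ := (h.2.1 j).2 s hs
          exact ⟨h5, fun s' hs' => h6 s' (List.mem_toFinset.1 hs')⟩)
        (List.mem_toFinset.2 hs) (List.mem_toFinset.2 ht) h4 hzs hzt

theorem draw_cross (i j : Fin 7) :
    (draw h).Cross s(eu i, ev i) s(eu j, ev j) ↔ (indep i j && d.X i j) = true := by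
  have mi : (s(eu i, ev i) : Sym2 (Fin 5)) ∈ H.edgeSet := mem_edge.2 ⟨i, rfl⟩
  have mj : (s(eu j, ev j) : Sym2 (Fin 5)) ∈ H.edgeSet := mem_edge.2 ⟨j, rfl⟩
  by_cases hind : indep i j = true
  · have hij : i ≠ j := by
      rintro rfl
      simp [indep] at hind
    have h1 : d.indOK i j := by
      rcases h.2.2.2 i j hij with h1 | h1
      · exfalso
        obtain ⟨w, h2, h3, -⟩ := h1
        simp only [indep, Bool.and_eq_true, decide_eq_true_eq] at hind
        rcases h2 with h2 | h2 <;> rcases h3 with h3 | h3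
        · exact hind.1.1.1 (h2.symm.trans h3)
        · exact hind.1.1.2 (h2.symm.trans h3)
        · exact hind.1.2 (h2.symm.trans h3)
        · exact hind.2 (h2.symm.trans h3)
      · exact h1
    rw [hind, Bool.true_and]
    constructor
    · rintro ⟨-, z, hz, -⟩
      change z ∈ theArc d _ ∩ theArc d _ at hz
      rw [theArc_eq, theArc_eq] at hz
      obtain ⟨s, hs, t, ht, h4, -⟩ := ind_cross h1 hz
      simp only [Data.X, List.any_eq_true]
      exact ⟨s, hs, t, ht, h4⟩
    · intro hX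
      simp only [Data.X, List.any_eq_true] at hX
      obtain ⟨s, hs, t, ht, h4⟩ := hX
      obtain ⟨z, h5, -⟩ := cross_sound h4
      have h6 : z ∈ sg s ∩ sg t := by rw [h5]; rfl
      have h7 : z ∈ arcL (d.L i) ∩ arcL (d.L j) := ⟨⟨s, hs, h6.1⟩, ⟨t, ht, h6.2⟩⟩
      refine ⟨fun hh => hij (edge_inj i j hh), z, ?_, ?_⟩
      · change z ∈ theArc d _ ∩ theArc d _
        rw [theArc_eq, theArc_eq]; exact h7
      · rintro ⟨w, rfl⟩
        have h8 := avoid_i h h7.1
        have h9 := avoid_i h h7.2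
        simp only [indep, Bool.and_eq_true, decide_eq_true_eq] at hind
        rcases h8 with h2 | h2 <;> rcases h9 with h3 | h3
        · exact hind.1.1.1 (h2.symm.trans h3)
        · exact hind.1.1.2 (h2.symm.trans h3)
        · exact hind.1.2 (h2.symm.trans h3)
        · exact hind.2 (h2.symm.trans h3)
  · have h1 : indep i j = false := by simpa using hind
    rw [h1, Bool.false_and]
    refine ⟨fun hc => ?_, fun hc => absurd hc (by simp)⟩
    exfalso
    have h2 : ∃ w, w ∈ (s(eu i, ev i) : Sym2 (Fin 5)) ∧ w ∈ (s(eu j, ev j) : Sym2 (Fin 5)) := by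
      simp only [indep, Bool.and_eq_false_iff, decide_eq_false_iff_not, not_not] at h1
      rcases h1 with ((h1 | h1) | h1) | h1
      · exact ⟨eu i, by simp, by rw [h1]; simp⟩
      · exact ⟨eu i, by simp, by rw [h1]; simp⟩
      · exact ⟨ev i, by simp, by rw [h1]; simp⟩
      · exact ⟨ev i, by simp, by rw [h1]; simp⟩
    obtain ⟨w, h3, h4⟩ := h2
    exact (draw h).not_cross_of_mem mi mj h3 h4 hc

end

end Pool.Agent.H858R3.PolyDraw
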