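import Pool.Agent.H858R3.Cross

/-!
# Simple topological graphs

The plane is the complex plane `ℂ`.
-/

set_option autoImplicit false

namespace Pool.Agent.H858R3.TopoGraph

open Complex Set Pool.Agent.H858R3.Lift Pool.Agent.H858R3.Cross

/-- `a` is (the set of points of) a Jordan arc in the plane joining `x` and `y`. -/
def IsArc (a : Set ℂ) (x y : ℂ) : Prop :=
  ∃ γ : Path x y, Function.Injective γ ∧ Set.range γ = a

/-- The arcs `a` and `b` cross properly at `z`: in suitable local coordinates around `z` (a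
homeomorphism `φ` between a neighbourhood of `z` and an open subset of `ℝ × ℝ`, with `φ z = 0`),
the arc `a` is the first coordinate axis and the arc `b` is the second coordinate axis. -/
def IsProperCrossing (a b : Set ℂ) (z : ℂ) : Prop :=
  ∃ φ : OpenPartialHomeomorph ℂ (ℝ × ℝ), z ∈ φ.source ∧ φ z = (0, 0) ∧
    ∀ w ∈ φ.source, (w ∈ a ↔ (φ w).2 = 0) ∧ (w ∈ b ↔ (φ w).1 = 0)

/-- A simple topological graph with underlying abstract graph `G`: the vertices are distinct points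
of the plane, each edge is a Jordan arc joining its two endpoints and passing through no other
vertex, and any two edges have at most one point in common, which is a vertex (hence a shared
endpoint) or a proper crossing. -/
structure SimpleTopGraph {V : Type} (G : SimpleGraph V) where
  /-- the point of a vertex -/
  pt : V → ℂ
  /-- the arc of an edge -/
  arc : Sym2 V → Set ℂ
  pt_inj : Function.Injective pt
  isArc : ∀ u v : V, G.Adj u v → IsArc (arc s(u, v)) (pt u) (pt v)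
  avoid : ∀ e ∈ G.edgeSet, ∀ w : V, pt w ∈ arc e → w ∈ e
  common : ∀ e ∈ G.edgeSet, ∀ f ∈ G.edgeSet, e ≠ f → (arc e ∩ arc f).Subsingleton
  proper : ∀ e ∈ G.edgeSet, ∀ f ∈ G.edgeSet, e ≠ f → ∀ z ∈ arc e ∩ arc f,
    z ∉ Set.range pt → IsProperCrossing (arc e) (arc f) z

/-- Two different edges cross in the simple topological graph `D` if their arcs have a common
point that is not a vertex. -/
def SimpleTopGraph.Cross {V : Type} {G : SimpleGraph V} (D : SimpleTopGraph G)
    (e f : Sym2 V) : Prop :=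
  e ≠ f ∧ ∃ z ∈ D.arc e ∩ D.arc f, z ∉ Set.range D.pt

/-- Two simple topological graphs with underlying abstract graph `G` are weakly isomorphic if
there is an automorphism of `G` (an incidence-preserving bijection between the vertex sets and
edge sets) such that two edges cross in the first one exactly when the corresponding edges cross
in the second one. -/
def WeakIso {V : Type} {G : SimpleGraph V} (D D' : SimpleTopGraph G) : Prop :=
  ∃ φ : G ≃g G, ∀ e ∈ G.edgeSet, ∀ f ∈ G.edgeSet,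
    (D.Cross e f ↔ D'.Cross (e.map φ) (f.map φ))

theorem map_mem {V : Type} {G : SimpleGraph V} (φ : G ≃g G) {e : Sym2 V} (he : e ∈ G.edgeSet) :
    e.map φ ∈ G.edgeSet := by
  induction e with
  | _ u v => exact φ.map_rel_iff.2 he

theorem map_symm {V : Type} {G : SimpleGraph V} (φ : G ≃g G) (e : Sym2 V) :
    (e.map φ.symm).map φ = e := by
  induction e with
  | _ u v => simp

theorem WeakIso.refl {V : Type} {G : SimpleGraph V} (D : SimpleTopGraph G) : WeakIso D D :=
  ⟨SimpleGraph.Iso.refl, fun e _ f _ => by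
    have : ∀ e : Sym2 V, e.map (SimpleGraph.Iso.refl : G ≃g G) = e := fun e => by
      induction e with
      | _ u v => rfl
    rw [this, this]⟩

theorem WeakIso.symm {V : Type} {G : SimpleGraph V} {D D' : SimpleTopGraph G}
    (h : WeakIso D D') : WeakIso D' D := by
  obtain ⟨φ, h⟩ := h
  refine ⟨φ.symm, fun e he f hf => ?_⟩
  have := h _ (map_mem φ.symm he) _ (map_mem φ.symm hf)
  rw [map_symm, map_symm] at this
  exact this.symm

theorem WeakIso.trans {V : Type} {G : SimpleGraph V} {D D' D'' : SimpleTopGraph G}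
    (h : WeakIso D D') (h' : WeakIso D' D'') : WeakIso D D'' := by
  obtain ⟨φ, h⟩ := h
  obtain ⟨ψ, h'⟩ := h'
  refine ⟨φ.trans ψ, fun e he f hf => ?_⟩
  have e1 : ∀ e : Sym2 V, e.map (φ.trans ψ) = (e.map φ).map ψ := fun e => by
    induction e with
    | _ u v => rfl
  rw [h e he f hf, h' _ (map_mem φ he) _ (map_mem φ hf), e1, e1]

/-- Weak isomorphism as an equivalence relation on the simple topological graphs with underlying
abstract graph `G`. -/
def weakSetoid {V : Type} (G : SimpleGraph V) : Setoid (SimpleTopGraph G) :=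
  ⟨WeakIso, WeakIso.refl, WeakIso.symm, WeakIso.trans⟩

/-- `T_w(G)`: the number of weak isomorphism classes of simple topological graphs with underlying
abstract graph `G`. -/
noncomputable def Tw {V : Type} (G : SimpleGraph V) : ℕ :=
  Nat.card (Quotient (weakSetoid G))

/-! ### Basic facts -/

theorem SimpleTopGraph.Cross.symm {V : Type} {G : SimpleGraph V} {D : SimpleTopGraph G}
    {e f : Sym2 V} (h : D.Cross e f) : D.Cross f e :=
  ⟨h.1.symm, h.2.imp fun _ hz => ⟨⟨hz.1.2, hz.1.1⟩, hz.2⟩⟩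

theorem SimpleTopGraph.cross_comm {V : Type} {G : SimpleGraph V} {D : SimpleTopGraph G}
    {e f : Sym2 V} : D.Cross e f ↔ D.Cross f e := ⟨fun h => h.symm, fun h => h.symm⟩

theorem SimpleTopGraph.pt_mem {V : Type} {G : SimpleGraph V} (D : SimpleTopGraph G)
    {e : Sym2 V} (he : e ∈ G.edgeSet) {w : V} (hw : w ∈ e) : D.pt w ∈ D.arc e := by
  obtain ⟨v, rfl⟩ := hw
  obtain ⟨γ, -, h⟩ := D.isArc w v he
  rw [← h]
  exact ⟨0, γ.source⟩

/-- adjacent edges do not cross -/
theorem SimpleTopGraph.not_cross_of_mem {V : Type} {G : SimpleGraph V} (D : SimpleTopGraph G)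
    {e f : Sym2 V} (he : e ∈ G.edgeSet) (hf : f ∈ G.edgeSet) {w : V} (h1 : w ∈ e) (h2 : w ∈ f) :
    ¬ D.Cross e f := by
  rintro ⟨hne, z, hz, hzn⟩
  apply hzn
  exact ⟨w, D.common e he f hf hne ⟨D.pt_mem he h1, D.pt_mem hf h2⟩ hz⟩

theorem finite_quotient {V : Type} [Finite V] (G : SimpleGraph V) :
    Finite (Quotient (weakSetoid G)) := by
  apply Finite.of_injective (β := Set (Sym2 V × Sym2 V))
    (fun q => {p | (q.out).Cross p.1 p.2})
  intro q q' h
  rw [← Quotient.out_eq q, ← Quotient.out_eq q']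
  apply Quotient.sound
  have h' : ∀ e f, q.out.Cross e f ↔ q'.out.Cross e f := by
    intro e f
    have := Set.ext_iff.1 h (e, f)
    exact this
  refine ⟨SimpleGraph.Iso.refl, fun e _ f _ => ?_⟩
  have : ∀ e : Sym2 V, e.map (SimpleGraph.Iso.refl : G ≃g G) = e := fun e => by
    induction e with
    | _ u v => rfl
  rw [this, this]
  exact h' e f

/-! ### A closed walk of length four has at most one crossing -/

theorem split {u v x : ℂ} {γ : Path u v} (hγ : Function.Injective γ) (hx : x ∈ range γ)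
    (hu : x ≠ u) (hv : x ≠ v) :
    ∃ E F : ℝ → ℂ, Continuous E ∧ Continuous F ∧ E 0 = x ∧ F 0 = x ∧ E 1 = u ∧ F 1 = v ∧
      (∀ s, E s ∈ range γ) ∧ (∀ s, F s ∈ range γ) ∧ (∀ s, E s ≠ v) ∧ (∀ s, F s ≠ u) ∧
      (∀ s, E s = x → s ≤ 0) ∧ (∀ s, F s = x → s ≤ 0) ∧ Cor E F := by
  obtain ⟨⟨τ, hτ0, hτ1⟩, rfl⟩ := hx
  have inj : ∀ s t : ℝ, s ∈ Icc (0 : ℝ) 1 → t ∈ Icc (0 : ℝ) 1 → γ.extend s = γ.extend t →
      s = t := by
    intro s t hs ht h
    rw [γ.extend_apply hs, γ.extend_apply ht] at h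
    exact congrArg Subtype.val (hγ h)
  have e0 : γ.extend τ = γ ⟨τ, hτ0, hτ1⟩ := γ.extend_apply ⟨hτ0, hτ1⟩
  have t0 : 0 < τ := by
    rcases hτ0.eq_or_lt with h | h
    · exfalso; apply hu
      rw [← e0, ← h, γ.extend_zero]
    · exact h
  have t1 : τ < 1 := by
    rcases hτ1.eq_or_lt with h | h
    · exfalso; apply hv
      rw [← e0, h, γ.extend_one]
    · exact h
  have cl : ∀ t : ℝ, 0 ≤ max 0 (min t 1) ∧ max 0 (min t 1) ≤ 1 := fun t =>
    ⟨le_max_left _ _, max_le zero_le_one (min_le_right _ _)⟩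
  have cl0 : ∀ t : ℝ, max 0 (min t 1) = 0 → t ≤ 0 := by
    intro t h
    by_contra hcon
    push Not at hcon
    have : 0 < max 0 (min t 1) := lt_max_of_lt_right (lt_min hcon one_pos)
    linarith
  have mE : ∀ s : ℝ, τ - τ * max 0 (min s 1) ∈ Icc (0 : ℝ) 1 := by
    intro s
    obtain ⟨h1, h2⟩ := cl s
    constructor <;> nlinarith
  have mF : ∀ s : ℝ, τ + (1 - τ) * max 0 (min s 1) ∈ Icc (0 : ℝ) 1 := by
    intro s
    obtain ⟨h1, h2⟩ := cl s
    constructor <;> nlinarith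
  have mem : ∀ s : ℝ, γ.extend s ∈ range γ := by
    intro s
    rw [← γ.extend_range]; exact ⟨s, rfl⟩
  refine ⟨fun s => γ.extend (τ - τ * max 0 (min s 1)),
    fun s => γ.extend (τ + (1 - τ) * max 0 (min s 1)), by fun_prop, by fun_prop, ?_, ?_, ?_, ?_,
    fun s => mem _, fun s => mem _, ?_, ?_, ?_, ?_, ?_⟩
  · simp [e0]
  · simp [e0]
  · simp
  · simp
  · intro s h
    have h1 := inj _ _ (mE s) (by simp) (h.trans γ.extend_one.symm)
    nlinarith [(cl s).1, (cl s).2]
  · intro s h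
    have h1 := inj _ _ (mF s) (by simp) (h.trans γ.extend_zero.symm)
    nlinarith [(cl s).1, (cl s).2]
  · intro s h
    rw [← e0] at h
    have h1 := inj _ _ (mE s) ⟨hτ0, hτ1⟩ h
    apply cl0
    have : τ * max 0 (min s 1) = 0 := by linarith
    exact (mul_eq_zero.1 this).resolve_left t0.ne'
  · intro s h
    rw [← e0] at h
    have h1 := inj _ _ (mF s) ⟨hτ0, hτ1⟩ h
    apply cl0
    have : (1 - τ) * max 0 (min s 1) = 0 := by linarith
    exact (mul_eq_zero.1 this).resolve_left (by linarith)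
  · intro s t h
    have h1 := inj _ _ (mE s) (mF t) h
    have h2 := (cl s).1
    have h3 := (cl t).1
    have h4 : 0 ≤ τ * max 0 (min s 1) := mul_nonneg t0.le h2
    have h5 : 0 ≤ (1 - τ) * max 0 (min t 1) := mul_nonneg (by linarith) h3
    constructor
    · apply cl0
      have : τ * max 0 (min s 1) = 0 := by linarith
      exact (mul_eq_zero.1 this).resolve_left t0.ne'
    · apply cl0
      have : (1 - τ) * max 0 (min t 1) = 0 := by linarith
      exact (mul_eq_zero.1 this).resolve_left (by linarith)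

theorem quad {a b c d x y : ℂ} {pab pbc pcd pda : Set ℂ} (hab : IsArc pab a b)
    (hbc : IsArc pbc b c) (hcd : IsArc pcd c d) (hda : IsArc pda d a)
    (iab : ∀ z, z ∈ pab → z ∈ pbc → z = b) (ibc : ∀ z, z ∈ pbc → z ∈ pcd → z = c)
    (icd : ∀ z, z ∈ pcd → z ∈ pda → z = d) (ida : ∀ z, z ∈ pda → z ∈ pab → z = a)
    (ix : ∀ z, z ∈ pab → z ∈ pcd → z = x) (iy : ∀ z, z ∈ pbc → z ∈ pda → z = y)
    (hx1 : x ∈ pab) (hx2 : x ∈ pcd) (hy1 : y ∈ pbc) (hy2 : y ∈ pda)
    (nxa : x ≠ a) (nxb : x ≠ b) (nxc : x ≠ c) (nxd : x ≠ d)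
    (nya : y ≠ a) (nyb : y ≠ b) (nyc : y ≠ c) (nyd : y ≠ d)
    (px : IsProperCrossing pab pcd x) (py : IsProperCrossing pbc pda y) : False := by
  obtain ⟨γ₁, g1, rfl⟩ := hab
  obtain ⟨γ₂, g2, rfl⟩ := hbc
  obtain ⟨γ₃, g3, rfl⟩ := hcd
  obtain ⟨γ₄, g4, rfl⟩ := hda
  obtain ⟨ea, eb, cea, ceb, ea0, eb0, ea1, eb1, mea, meb, neab, neba, eax, ebx, eab⟩ :=
    split g1 hx1 nxa nxb
  obtain ⟨ec, ed, cec, ced, ec0, ed0, ec1, ed1, mec, med, necd, nedc, ecx, edx, ecd⟩ :=
    split g3 hx2 nxc nxd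
  obtain ⟨fb, fc, cfb, cfc, fb0, fc0, fb1, fc1, mfb, mfc, nfbc, nfcb, fbx, fcx, fbc⟩ :=
    split g2 hy1 nyb nyc
  obtain ⟨fd, fa, cfd, cfa, fd0, fa0, fd1, fa1, mfd, mfa, nfda, nfad, fdx, fax, fda⟩ :=
    split g4 hy2 nyd nya
  have eac : Cor ea ec := fun s t h => by
    have h1 := ix _ (mea s) (by rw [h]; exact mec t)
    exact ⟨eax s h1, ecx t (by rw [← h]; exact h1)⟩
  have ead : Cor ea ed := fun s t h => by
    have h1 := ix _ (mea s) (by rw [h]; exact med t)
    exact ⟨eax s h1, edx t (by rw [← h]; exact h1)⟩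
  have ebc : Cor eb ec := fun s t h => by
    have h1 := ix _ (meb s) (by rw [h]; exact mec t)
    exact ⟨ebx s h1, ecx t (by rw [← h]; exact h1)⟩
  have ebd : Cor eb ed := fun s t h => by
    have h1 := ix _ (meb s) (by rw [h]; exact med t)
    exact ⟨ebx s h1, edx t (by rw [← h]; exact h1)⟩
  have fba : Cor fb fa := fun s t h => by
    have h1 := iy _ (mfb s) (by rw [h]; exact mfa t)
    exact ⟨fbx s h1, fax t (by rw [← h]; exact h1)⟩
  have fbd : Cor fb fd := fun s t h => by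
    have h1 := iy _ (mfb s) (by rw [h]; exact mfd t)
    exact ⟨fbx s h1, fdx t (by rw [← h]; exact h1)⟩
  have fca : Cor fc fa := fun s t h => by
    have h1 := iy _ (mfc s) (by rw [h]; exact mfa t)
    exact ⟨fcx s h1, fax t (by rw [← h]; exact h1)⟩
  have fcd : Cor fc fd := fun s t h => by
    have h1 := iy _ (mfc s) (by rw [h]; exact mfd t)
    exact ⟨fcx s h1, fdx t (by rw [← h]; exact h1)⟩
  obtain ⟨φ, hφ1, hφ2, hφ3⟩ := px
  obtain ⟨ψ, hψ1, hψ2, hψ3⟩ := py
  have k1 := (crossing_sign cea ceb cec ced (ea0.trans eb0.symm) (ea0.trans ec0.symm)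
    (ea0.trans ed0.symm) eab eac ead ebc ebd ecd _ _ φ (by rw [ea0]; exact hφ1)
    (by rw [ea0]; exact hφ2) hφ3 (fun s _ _ => mea s) (fun s _ _ => meb s)
    (fun s _ _ => mec s) (fun s _ _ => med s)).1
  have k2 := (crossing_sign cfb cfc cfa cfd (fb0.trans fc0.symm) (fb0.trans fa0.symm)
    (fb0.trans fd0.symm) fbc fba fbd fca fcd fda.symm _ _ ψ (by rw [fb0]; exact hψ1)
    (by rw [fb0]; exact hψ2) hψ3 (fun s _ _ => mfb s) (fun s _ _ => mfc s)
    (fun s _ _ => mfa s) (fun s _ _ => mfd s)).2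
  have dab : ∀ s t, ea s ≠ fb t := fun s t h =>
    neab s (iab _ (mea s) (by rw [h]; exact mfb t))
  have dac : ∀ s t, ea s ≠ fc t := fun s t h =>
    neab s (iab _ (mea s) (by rw [h]; exact mfc t))
  have dad : ∀ s t, ea s ≠ fd t := fun s t h =>
    nfda t (by rw [← h]; exact ida _ (by rw [h]; exact mfd t) (mea s))
  have dba : ∀ s t, eb s ≠ fa t := fun s t h =>
    neba s (ida _ (by rw [h]; exact mfa t) (meb s))
  have dbc : ∀ s t, eb s ≠ fc t := fun s t h =>
    nfcb t (by rw [← h]; exact iab _ (meb s) (by rw [h]; exact mfc t))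
  have dbd : ∀ s t, eb s ≠ fd t := fun s t h =>
    neba s (ida _ (by rw [h]; exact mfd t) (meb s))
  have dca : ∀ s t, ec s ≠ fa t := fun s t h =>
    necd s (icd _ (mec s) (by rw [h]; exact mfa t))
  have dcb : ∀ s t, ec s ≠ fb t := fun s t h =>
    nfbc t (by rw [← h]; exact ibc _ (by rw [h]; exact mfb t) (mec s))
  have dda : ∀ s t, ed s ≠ fa t := fun s t h =>
    nfad t (by rw [← h]; exact icd _ (med s) (by rw [h]; exact mfa t))
  have ddb : ∀ s t, ed s ≠ fb t := fun s t h =>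
    nedc s (ibc _ (by rw [h]; exact mfb t) (med s))
  have k3 := theta cea ceb cec cfa cfb cfc (ea0.trans eb0.symm) (ea0.trans ec0.symm)
    (fa0.trans fb0.symm) (fa0.trans fc0.symm) (ea1.trans fa1.symm) (eb1.trans fb1.symm)
    (ec1.trans fc1.symm) dab dac dba dbc dca dcb
  have k4 := theta cea ceb ced cfa cfb cfd (ea0.trans eb0.symm) (ea0.trans ed0.symm)
    (fa0.trans fb0.symm) (fa0.trans fd0.symm) (ea1.trans fa1.symm) (eb1.trans fb1.symm)
    (ed1.trans fd1.symm) dab dad dba dbd dda ddb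
  have k5 : S fb fa fd = - S fa fb fd := by
    rw [← S_rot, S_swap]
  have k6 : S fb fc fa = S fa fb fc := S_rot _ _ _
  have k7 : S ea eb ec = 0 := by
    have : (2 : ℂ) * S ea eb ec = 0 := by
      linear_combination k3 + k1 - k4 + k5 - k2 + k6
    simpa using this
  have k8 := S_exp cea ceb cec (ea0.trans eb0.symm) (ea0.trans ec0.symm) eab ebc eac.symm
  rw [k7, exp_zero] at k8
  norm_num at k8

/-- In a simple topological graph, the two pairs of opposite edges of a closed walk of length four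
do not both cross. -/
theorem SimpleTopGraph.quad {V : Type} {G : SimpleGraph V} (D : SimpleTopGraph G) {a b c d : V}
    (hab : G.Adj a b) (hbc : G.Adj b c) (hcd : G.Adj c d) (hda : G.Adj d a) (hac : a ≠ c)
    (hbd : b ≠ d) (h1 : D.Cross s(a, b) s(c, d)) (h2 : D.Cross s(b, c) s(d, a)) : False := by
  obtain ⟨ne1, x, ⟨hx1, hx2⟩, hxn⟩ := h1
  obtain ⟨ne2, y, ⟨hy1, hy2⟩, hyn⟩ := h2
  have nx : ∀ v, x ≠ D.pt v := fun v h => hxn ⟨v, h.symm⟩
  have ny : ∀ v, y ≠ D.pt v := fun v h => hyn ⟨v, h.symm⟩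
  have mab := D.pt_mem (e := s(a, b)) hab (w := a) (by simp)
  have mab' := D.pt_mem (e := s(a, b)) hab (w := b) (by simp)
  have mbc := D.pt_mem (e := s(b, c)) hbc (w := b) (by simp)
  have mbc' := D.pt_mem (e := s(b, c)) hbc (w := c) (by simp)
  have mcd := D.pt_mem (e := s(c, d)) hcd (w := c) (by simp)
  have mcd' := D.pt_mem (e := s(c, d)) hcd (w := d) (by simp)
  have mda := D.pt_mem (e := s(d, a)) hda (w := d) (by simp)
  have mda' := D.pt_mem (e := s(d, a)) hda (w := a) (by simp)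
  have eab : (s(a, b) : Sym2 V) ≠ s(b, c) := by
    intro h
    rw [Sym2.eq_iff] at h
    rcases h with ⟨h, -⟩ | ⟨h, -⟩
    · exact hab.ne h
    · exact hac h
  have ebc : (s(b, c) : Sym2 V) ≠ s(c, d) := by
    intro h
    rw [Sym2.eq_iff] at h
    rcases h with ⟨h, -⟩ | ⟨h, -⟩
    · exact hbc.ne h
    · exact hbd h
  have ecd : (s(c, d) : Sym2 V) ≠ s(d, a) := by
    intro h
    rw [Sym2.eq_iff] at h
    rcases h with ⟨h, -⟩ | ⟨h, -⟩
    · exact hcd.ne h
    · exact hac h.symm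
  have eda : (s(d, a) : Sym2 V) ≠ s(a, b) := by
    intro h
    rw [Sym2.eq_iff] at h
    rcases h with ⟨h, -⟩ | ⟨h, -⟩
    · exact hda.ne h
    · exact hbd h.symm
  exact TopoGraph.quad (D.isArc a b hab) (D.isArc b c hbc) (D.isArc c d hcd) (D.isArc d a hda)
    (fun z h h' => D.common _ hab _ hbc eab ⟨h, h'⟩ ⟨mab', mbc⟩)
    (fun z h h' => D.common _ hbc _ hcd ebc ⟨h, h'⟩ ⟨mbc', mcd⟩)
    (fun z h h' => D.common _ hcd _ hda ecd ⟨h, h'⟩ ⟨mcd', mda⟩)
    (fun z h h' => D.common _ hda _ hab eda ⟨h, h'⟩ ⟨mda', mab⟩)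
    (fun z h h' => D.common _ hab _ hcd ne1 ⟨h, h'⟩ ⟨hx1, hx2⟩)
    (fun z h h' => D.common _ hbc _ hda ne2 ⟨h, h'⟩ ⟨hy1, hy2⟩)
    hx1 hx2 hy1 hy2 (nx a) (nx b) (nx c) (nx d) (ny a) (ny b) (ny c) (ny d)
    (D.proper _ hab _ hcd ne1 x ⟨hx1, hx2⟩ hxn) (D.proper _ hbc _ hda ne2 y ⟨hy1, hy2⟩ hyn)

end Pool.Agent.H858R3.TopoGraph
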