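import Pool.Agent.H858R3.TopoGraph

/-!
# At most twenty-three weak isomorphism classes for the complete graph on five vertices
-/

set_option autoImplicit false

namespace Pool.Agent.H858R3.Upper

open Pool.Agent.H858R3.TopoGraph

/-- the 15 pairs of independent edges: the vertices `(a, b | c, d)` for the missed vertex `k` and
the index `m` of the pairing -/
def qlist : List (ℕ × ℕ × ℕ × ℕ × ℕ × ℕ) :=
  [(0, 0, 1, 2, 3, 4), (0, 1, 1, 3, 2, 4), (0, 2, 1, 4, 2, 3), (1, 0, 0, 2, 3, 4), (1, 1, 0, 3, 2, 4), (1, 2, 0, 4, 2, 3), (2, 0, 0, 1, 3, 4), (2, 1, 0, 3, 1, 4), (2, 2, 0, 4, 1, 3), (3, 0, 0, 1, 2, 4), (3, 1, 0, 2, 1, 4), (3, 2, 0, 4, 1, 2), (4, 0, 0, 1, 2, 3), (4, 1, 0, 2, 1, 3), (4, 2, 0, 3, 1, 2)]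

def qa : Fin 5 → Fin 3 → Fin 5 := ![![1, 1, 1], ![0, 0, 0], ![0, 0, 0], ![0, 0, 0], ![0, 0, 0]]
def qb : Fin 5 → Fin 3 → Fin 5 := ![![2, 3, 4], ![2, 3, 4], ![1, 3, 4], ![1, 2, 4], ![1, 2, 3]]
def qc : Fin 5 → Fin 3 → Fin 5 := ![![3, 2, 2], ![3, 2, 2], ![3, 1, 1], ![2, 1, 1], ![2, 1, 1]]
def qd : Fin 5 → Fin 3 → Fin 5 := ![![4, 4, 3], ![4, 4, 3], ![4, 4, 3], ![4, 4, 2], ![3, 3, 2]]

def p0 (k : ℕ) : ℕ := if k = 0 then 21 else if k = 1 then 14 else if k = 2 then 7 else if k = 3 then 6 else 5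
def p1 (k : ℕ) : ℕ := if k = 0 then 24 else if k = 1 then 18 else if k = 2 then 15 else if k = 3 then 10 else 8

/-- the index of a pairing -/
def mOf (k P : ℕ) : ℕ := if P = p0 k then 0 else if P = p1 k then 1 else 2

/-- the crossing pattern with the given code -/
def Zn (i a b c d : ℕ) : Bool :=
  i / 4 ^ (10 - (a + b + c + d)) % 4 == mOf (10 - (a + b + c + d)) ((a + b) * (c + d)) + 1

/-- the table: for each code a representative and a permutation -/
def tab : ℕ := 0x2a31129c112a3106888a8133465415688916888b8c15370154888716888c29c0c29c0b29c0a443886621581a344c8914c88b45c1146311463104c88a8c15470153508714c88c45c0b45c0c45c0a28388708548c8538c8516818c708538c854708514c18c708528c8528c8506888d21c4e05c4e21c4a214662a30b2a30c2a30a458884630c4630b4630a298880634e2234e2234a2226645c0546305463042234229c1429c1329c126888e6541265414654132d08e4cc134cc124cc144588e6540e4cc0e29c0e443893107181a33881742d08c8531085311654112d08a2d091503344cc152d08b6540a6540c6540b40c68310736a116881736888f853128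5313853140d18e31074503332235105a8c6142e4cc0f21c4c214670e14c6620f0a32e298876620d6222c4232c298860a16c4216e2234b0998545c0645c0741c25223432a3132a3142a3126818e8133330271888742c28c5191630273888734588f6540f0cc4c09c2e283876621466212662132c28e85a1185a10662112c28a85a1385a1285a140ca8e6142c6540d41c2c283864e1124e1134e1144438e518342c2914e1152c28b518333027421c510538c40c6e08c6c21c4b08b854e10e6620e2a30e458896620c6620a6620b421684e10f6222e2234c2226746307463064232521c4311a2c1132c31a0d4c8861116e3026b5016c4c18531a0f5032e7014c4c8872d4070d4252d406302633106b10a6e5086c4c8853106a3026a5086a508643106c3026e5086b508654cc08303462d408302625182e3130f7084c508673106e3026c7084b501657084e7014e7084a508664cc0930347503282c2830e2252e2072e20631063318464e1082e20831062318474e109518282d0832a30329c032a3020a32131311313102d4116508a8195385071501746508c883346509168c156508b2d40c2d40a2d40b40b882d4142d4122d4136508e45c1345c1445c124c88e68c1268c1368c142988e68c0e2d40e45c0e444693131331312313146118e4e11685073501734c88f883338507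42227121a8c68c0f0d42e05c4c213870e22c2e20d0a32c458862e20f6214c4232e458870a16e4216c2226b4198529c0729c0609c252226370a15458918c2344588b8195446071702334588c4cc1150b1050b114588a4cc0b4cc0a4cc0c284682a071811748c2332988c298918ca15702342988b88b1068c1188b112988a68c0a68c0b68c0c4446870a1470a1370a1221a8e8ca138ca148ca1205a8e8ca1170a118ca1021a8a6842c4c42c68c0d213862a06b4606c0626e458852a06c4606b2226e460652a06a4606a2226a4606445c0829c0822346222626605485851858536118c6605285850858526508d6605366051858544198c2c44e2c44a0cc4e284662a07381173711166508f2a07430351303530ca8c88b1288b1488b130998e6842e2c44c45c0f2846751912519145191340b8e4e0332c4513035408b8c4e0345191521a9121a8b4446e2c44b0546c08c654e02e6604c2a30f460676604e6604a6214e460662a06e6604b2226c4216545c09423282234721a833130b3130a3130c4c88810b4e3034a3034e3026650b0c50b0a50b0b2d0884cc0550b0450b05303421194c1132e70a0f2d0871116c3034b5016e0d18570a0d5032c7022c2d0864cc064c4254cc07303435190e3130e70a0e4c8895190f3034c7022e3026770a0c70a0b70a0a5016850b075032550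b062c44311a2531a0631a072a0632e0474e02851909298832e04631a08519082a06231303313022d4031132131a1031a112e2116428a2e2122e2142e2136428e31a1231a1331a1460a8e2d40d0d42c09c2c443868427180b53508746428c4631446313463124c18e8427389916508732988f60c4c2d40f41c2e4438764291898346a1156428b6a1136a1126a1142838e8427489833214712138c40c6c08c6e2146b40b852e20a2e20c2e20b419882e20e6a10e4630e460690e22e6a10f0634c21a872a3062a3070a3252146384351460748435360a8c80a73460738d1162d08f50b1450b1250b134198e6444c4c42e29c0f44467318502e052318522d08d318512e054318530d18c2e0512e053318540998c6444a6444e60c4e44466644516a0338435440b8c89914899128991308b8e899156a034213912138b6444b2846e2146c40c652e04a2e04e0e14e2a0662e04c6a02e4630f2a0672e04b4606e0626c0a16541c284630921c472138344391711158d0344438b80a74284718d0332838c7111371114711122138e4446c2846b0546e443854447180b54710334438c8d11528391710342838b8d1148d1138d1120538e4446b2846c2146e44465519104e111519114438a6a11189910899112838a711118d1118d1102138a4446a2846a2146a444644e10a4e10b4e10c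2a0686a10b6a10a6a10c460684e02c6a02c6a10d21a862a3084630821c462146231a0a31a0b31a0c4c18811a2e10b4c7110f2c28731a0e50b0e7110e50869313061132531307284633184a1194e3184e310663184b10a6c5086e111653184c50b0f7102e310674c4282c44750b09283835190a5190c5190b310685182c7110d7102c2c2867110b7110c7110a50868313082c44650b0828462519044e10551905318424e0254e1064e107318435182551907519062e04331a0231a032e20311a218426a8506a8886a8886480a6e8506b8886c688858426e8506c8886b888658434668c0865408842628426b8116e8816c681858132c81a2c85a0d688868832e85a0f8c14c68887614256540765406842638426c8506e8c84b881658530f8982e8c84c888678c14e8c84e8c84a888668434768c0988328642836a108858466620885062662076222566206850636a10985847898286508345c034630346302423218434b8116c8816e611858132e8194c8ca0f650878832c8ca0d8c22c650866842568c0668c07843438434a80b4e8434e842668530a8530b8530c6888888b0a88b0c88b0b6508888b0468c0588b05843428434c8990f8c22e842678530e8990e8ca0e688898ca0b8ca0c8ca0a881688832588b0788b06644436a02866047899094588385a0681a2585a07460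6385a086604689908460628530285303654038132180a6c8584b8886e811658194e8584a8584e8506688b0f8584c8d02e85067644476842888b094438380b4c81a2e8d10f6428785a0b85a0a85a0c6818888b0e85a0e8d10e88869813258530685307444638d10d8982c8d02c642868990c8990a8990b850688d10c8d10b8d10a88868644468530888b08444626a1066a0256a107858436a1058990489905858428990789825899066604385a0385a026620381a217110870a088c84688862711098d0288c8476888370a0770a0670225888634cc0350b0250b0350321710288d109708474c8838ca088d10870846508628ca068ca078c2255086388b0268c0388b03883217110671107710258c8438d1078d1068d02570843711058d1058d1048c8428ca0370a038ca028c221519024e10351903518216a103899028990389821711038d1038d1028d02151901899018d1018d100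

def repTab : ℕ := 0x1b95ad6759965559551b46517c57158550b82a06c1a058150180500400

def rc (r : ℕ) : ℕ := repTab / 2 ^ (10 * r) % 1024

def ent (i : ℕ) : ℕ := tab / 2 ^ (20 * i) % 1048576

def pv (p v : ℕ) : ℕ := p / 8 ^ v % 8

def permOK (p : ℕ) : Bool :=
  (List.range 5).all fun u => decide (pv p u < 5) &&
    (List.range 5).all fun v => decide (u = v) || decide (pv p u ≠ pv p v)

def rowOK (i : ℕ) : Bool :=
  decide (ent i % 32 < 23) && permOK (ent i / 32) &&
    qlist.all fun x => Zn i x.2.2.1 x.2.2.2.1 x.2.2.2.2.1 x.2.2.2.2.2 ==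
      Zn (rc (ent i % 32)) (pv (ent i / 32) x.2.2.1) (pv (ent i / 32) x.2.2.2.1)
        (pv (ent i / 32) x.2.2.2.2.1) (pv (ent i / 32) x.2.2.2.2.2)

theorem table : (List.range 1024).all rowOK = true := by decide +kernel

/-- the four symmetries of a relation between pairs -/
def Symm4 (F : Fin 5 → Fin 5 → Fin 5 → Fin 5 → Prop) : Prop :=
  ∀ a b c d, (F a b c d ↔ F b a c d) ∧ (F a b c d ↔ F a b d c) ∧ (F a b c d ↔ F c d a b)

def cov (a b c d : Fin 5) (k : Fin 5) (m : Fin 3) : Bool :=
  (((decide (a = qa k m) && decide (b = qb k m)) || (decide (b = qa k m) && decide (a = qb k m))) &&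
    ((decide (c = qc k m) && decide (d = qd k m)) || (decide (d = qc k m) && decide (c = qd k m)))) ||
  (((decide (c = qa k m) && decide (d = qb k m)) || (decide (d = qa k m) && decide (c = qb k m))) &&
    ((decide (a = qc k m) && decide (b = qd k m)) || (decide (b = qc k m) && decide (a = qd k m))))

theorem cover0 : ∀ a b c d : Fin 5, a ≠ b → a ≠ c → a ≠ d → b ≠ c → b ≠ d → c ≠ d →
    ∃ k : Fin 5, ∃ m : Fin 3, cov a b c d k m = true := by decide +kernel

theorem cover (a b c d : Fin 5) (h1 : a ≠ b) (h2 : a ≠ c) (h3 : a ≠ d) (h4 : b ≠ c) (h5 : b ≠ d)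
    (h6 : c ≠ d) : ∃ k : Fin 5, ∃ m : Fin 3,
      (((a = qa k m ∧ b = qb k m) ∨ (b = qa k m ∧ a = qb k m)) ∧
        ((c = qc k m ∧ d = qd k m) ∨ (d = qc k m ∧ c = qd k m))) ∨
      (((c = qa k m ∧ d = qb k m) ∨ (d = qa k m ∧ c = qb k m)) ∧
        ((a = qc k m ∧ b = qd k m) ∨ (b = qc k m ∧ a = qd k m))) := by
  obtain ⟨k, m, h⟩ := cover0 a b c d h1 h2 h3 h4 h5 h6
  refine ⟨k, m, ?_⟩
  simpa only [cov, Bool.or_eq_true, Bool.and_eq_true, decide_eq_true_eq] using h

theorem ext4 {F G : Fin 5 → Fin 5 → Fin 5 → Fin 5 → Prop} (hF : Symm4 F) (hG : Symm4 G)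
    (h : ∀ k m, F (qa k m) (qb k m) (qc k m) (qd k m) ↔ G (qa k m) (qb k m) (qc k m) (qd k m))
    {a b c d : Fin 5} (h1 : a ≠ b) (h2 : a ≠ c) (h3 : a ≠ d) (h4 : b ≠ c) (h5 : b ≠ d)
    (h6 : c ≠ d) : F a b c d ↔ G a b c d := by
  obtain ⟨k, m, h⟩ | h := em (∃ k : Fin 5, ∃ m : Fin 3,
      (((a = qa k m ∧ b = qb k m) ∨ (b = qa k m ∧ a = qb k m)) ∧
        ((c = qc k m ∧ d = qd k m) ∨ (d = qc k m ∧ c = qd k m))) ∨
      (((c = qa k m ∧ d = qb k m) ∨ (d = qa k m ∧ c = qb k m)) ∧
        ((a = qc k m ∧ b = qd k m) ∨ (b = qc k m ∧ a = qd k m))))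
  · have hk := ‹∀ k m, F (qa k m) (qb k m) (qc k m) (qd k m) ↔ G (qa k m) (qb k m) (qc k m) (qd k m)› k m
    rcases h with ⟨h7 | h7, h8 | h8⟩ | ⟨h7 | h7, h8 | h8⟩
    · rw [h7.1, h7.2, h8.1, h8.2]; exact hk
    · rw [(hF a b c d).2.1, (hG a b c d).2.1, h7.1, h7.2, h8.1, h8.2]; exact hk
    · rw [(hF a b c d).1, (hG a b c d).1, h7.1, h7.2, h8.1, h8.2]; exact hk
    · rw [(hF a b c d).1, (hG a b c d).1, (hF b a c d).2.1, (hG b a c d).2.1, h7.1, h7.2, h8.1,
        h8.2]; exact hk
    · rw [(hF a b c d).2.2, (hG a b c d).2.2, h7.1, h7.2, h8.1, h8.2]; exact hk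
    · rw [(hF a b c d).2.2, (hG a b c d).2.2, (hF c d a b).2.1, (hG c d a b).2.1, h7.1, h7.2,
        h8.1, h8.2]; exact hk
    · rw [(hF a b c d).2.2, (hG a b c d).2.2, (hF c d a b).1, (hG c d a b).1, h7.1, h7.2,
        h8.1, h8.2]; exact hk
    · rw [(hF a b c d).2.2, (hG a b c d).2.2, (hF c d a b).1, (hG c d a b).1,
        (hF d c a b).2.1, (hG d c a b).2.1, h7.1, h7.2, h8.1, h8.2]; exact hk
  · exact absurd (cover a b c d h1 h2 h3 h4 h5 h6) h

/-- the crossing pattern with the given code, on the vertices -/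
def Z (i : ℕ) (a b c d : Fin 5) : Prop := Zn i a b c d = true

theorem Zn_symm (i a b c d : ℕ) : Zn i a b c d = Zn i b a c d ∧ Zn i a b c d = Zn i a b d c ∧
    Zn i a b c d = Zn i c d a b := by
  unfold Zn
  refine ⟨?_, ?_, ?_⟩
  · rw [Nat.add_comm a b]
  · rw [Nat.add_comm c d, Nat.add_assoc (a + b) c d, Nat.add_assoc (a + b) d c, Nat.add_comm c d]
  · rw [show c + d + a + b = a + b + c + d by ring, Nat.mul_comm (c + d) (a + b)]

theorem Z_symm (i : ℕ) (f : Fin 5 → ℕ) :
    Symm4 (fun a b c d => Zn i (f a) (f b) (f c) (f d) = true) := by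
  intro a b c d
  obtain ⟨h1, h2, h3⟩ := Zn_symm i (f a) (f b) (f c) (f d)
  refine ⟨?_, ?_, ?_⟩
  · simp only [h1]
  · simp only [h2]
  · simp only [h3]

theorem cross_symm (D : SimpleTopGraph (⊤ : SimpleGraph (Fin 5))) :
    Symm4 (fun a b c d => D.Cross s(a, b) s(c, d)) := by
  intro a b c d
  refine ⟨?_, ?_, ?_⟩
  · simp only [Sym2.eq_swap (a := a) (b := b)]
  · simp only [Sym2.eq_swap (a := c) (b := d)]
  · exact SimpleTopGraph.cross_comm

theorem walk : ∀ (k : Fin 5) (m m' : Fin 3), m ≠ m' → ∃ a b c d : Fin 5,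
    a ≠ b ∧ b ≠ c ∧ c ≠ d ∧ d ≠ a ∧ a ≠ c ∧ b ≠ d ∧
    ((((s(a, b) : Sym2 (Fin 5)) = s(qa k m, qb k m)) ∧ ((s(c, d) : Sym2 (Fin 5)) = s(qc k m, qd k m)))) ∧
    (((s(b, c) : Sym2 (Fin 5)) = s(qa k m', qb k m') ∧
        (s(d, a) : Sym2 (Fin 5)) = s(qc k m', qd k m')) ∨
      ((s(d, a) : Sym2 (Fin 5)) = s(qa k m', qb k m') ∧
        (s(b, c) : Sym2 (Fin 5)) = s(qc k m', qd k m'))) := by decide +kernel

theorem one (D : SimpleTopGraph (⊤ : SimpleGraph (Fin 5))) (k : Fin 5) {m m' : Fin 3}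
    (hm : m ≠ m') (h1 : D.Cross s(qa k m, qb k m) s(qc k m, qd k m))
    (h2 : D.Cross s(qa k m', qb k m') s(qc k m', qd k m')) : False := by
  obtain ⟨a, b, c, d, n1, n2, n3, n4, n5, n6, ⟨h3, h4⟩, h5⟩ := walk k m m' hm
  rw [← h3, ← h4] at h1
  rcases h5 with ⟨h5, h6⟩ | ⟨h5, h6⟩
  · rw [← h5, ← h6] at h2
    exact D.quad (a := a) (b := b) (c := c) (d := d) n1 n2 n3 n4 n5 n6 h1 h2
  · rw [← h5, ← h6] at h2
    exact D.quad (a := a) (b := b) (c := c) (d := d) n1 n2 n3 n4 n5 n6 h1 h2.symm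

theorem code_q : ∀ (k : Fin 5) (m : Fin 3),
    10 - ((qa k m : ℕ) + qb k m + qc k m + qd k m) = k ∧
      mOf k (((qa k m : ℕ) + qb k m) * (qc k m + qd k m)) = m := by decide +kernel

theorem exists_code (D : SimpleTopGraph (⊤ : SimpleGraph (Fin 5))) :
    ∃ i < 1024, ∀ a b c d : Fin 5, a ≠ b → a ≠ c → a ≠ d → b ≠ c → b ≠ d → c ≠ d →
      (D.Cross s(a, b) s(c, d) ↔ Zn i a b c d = true) := by
  classical
  have hex : ∀ k : Fin 5, ∃ x : Fin 4, ∀ m : Fin 3,
      D.Cross s(qa k m, qb k m) s(qc k m, qd k m) ↔ x = m.succ := by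
    intro k
    by_cases h : ∃ m : Fin 3, D.Cross s(qa k m, qb k m) s(qc k m, qd k m)
    · obtain ⟨m, hm⟩ := h
      refine ⟨m.succ, fun m' => ⟨fun h' => ?_, fun h' => ?_⟩⟩
      · by_contra hne
        exact one D k (fun e => hne (by rw [e])) hm h'
      · have : m = m' := Fin.succ_injective _ h'
        rw [← this]; exact hm
    · push Not at h
      refine ⟨0, fun m => ⟨fun h' => absurd h' (h m), fun h' => absurd h'.symm (Fin.succ_ne_zero m)⟩⟩
  choose x hx using hex
  refine ⟨(x 0 : ℕ) + 4 * x 1 + 16 * x 2 + 64 * x 3 + 256 * x 4, ?_, ?_⟩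
  · have h0 := (x 0).2
    have h1 := (x 1).2
    have h2 := (x 2).2
    have h3 := (x 3).2
    have h4 := (x 4).2
    omega
  · intro a b c d n1 n2 n3 n4 n5 n6
    refine ext4 (cross_symm D) (Z_symm _ (fun v => (v : ℕ))) ?_ n1 n2 n3 n4 n5 n6
    intro k m
    obtain ⟨e1, e2⟩ := code_q k m
    show D.Cross s(qa k m, qb k m) s(qc k m, qd k m) ↔ Zn _ _ _ _ _ = true
    rw [hx]
    unfold Zn
    rw [e1, e2]
    have hdig : ((x 0 : ℕ) + 4 * x 1 + 16 * x 2 + 64 * x 3 + 256 * x 4) / 4 ^ (k : ℕ) % 4 = x k := by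
      have h0 := (x 0).2
      have h1 := (x 1).2
      have h2 := (x 2).2
      have h3 := (x 3).2
      have h4 := (x 4).2
      fin_cases k
      · simp; omega
      · simp; omega
      · simp; omega
      · simp; omega
      · simp; omega
    rw [hdig, beq_iff_eq, Fin.ext_iff, Fin.val_succ]

theorem pv_inj {p : ℕ} (h : permOK p = true) : (∀ u : Fin 5, pv p u < 5) ∧
    ∀ u v : Fin 5, pv p u = pv p v → u = v := by
  unfold permOK at h
  rw [List.all_eq_true] at h
  constructor
  · intro u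
    have := h u (List.mem_range.2 u.2)
    rw [Bool.and_eq_true, decide_eq_true_eq] at this
    exact this.1
  · intro u v huv
    have := h u (List.mem_range.2 u.2)
    rw [Bool.and_eq_true, List.all_eq_true] at this
    have := this.2 v (List.mem_range.2 v.2)
    rw [Bool.or_eq_true, decide_eq_true_eq, decide_eq_true_eq] at this
    rcases this with h1 | h1
    · exact Fin.ext h1
    · exact absurd huv h1

theorem mem_q : ∀ (k : Fin 5) (m : Fin 3),
    ((k : ℕ), (m : ℕ), (qa k m : ℕ), (qb k m : ℕ), (qc k m : ℕ), (qd k m : ℕ)) ∈ qlist := by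
  decide +kernel

/-- every pattern is the image of one of 23 patterns -/
theorem exists_rep {i : ℕ} (hi : i < 1024) : ∃ r : Fin 23, ∃ π : Equiv.Perm (Fin 5),
    ∀ a b c d : Fin 5, a ≠ b → a ≠ c → a ≠ d → b ≠ c → b ≠ d → c ≠ d →
      (Zn i a b c d = true ↔ Zn (rc r) (π a) (π b) (π c) (π d) = true) := by
  have h := List.all_eq_true.1 table i (List.mem_range.2 hi)
  unfold rowOK at h
  rw [Bool.and_eq_true, Bool.and_eq_true, decide_eq_true_eq, List.all_eq_true] at h
  obtain ⟨⟨h1, h2⟩, h3⟩ := h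
  obtain ⟨h4, h5⟩ := pv_inj h2
  let f : Fin 5 → Fin 5 := fun u => ⟨pv (ent i / 32) u, h4 u⟩
  have hf : Function.Injective f := fun u v huv => h5 u v (congrArg Fin.val huv)
  refine ⟨⟨ent i % 32, h1⟩, Equiv.ofBijective f (Finite.injective_iff_bijective.1 hf), ?_⟩
  intro a b c d n1 n2 n3 n4 n5 n6
  show Zn i a b c d = true ↔ Zn (rc (ent i % 32)) (pv (ent i / 32) a) (pv (ent i / 32) b)
    (pv (ent i / 32) c) (pv (ent i / 32) d) = true
  refine ext4 (Z_symm i (fun v => (v : ℕ)))
    (Z_symm (rc (ent i % 32)) (fun v => pv (ent i / 32) v)) ?_ n1 n2 n3 n4 n5 n6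
  intro k m
  have := h3 _ (mem_q k m)
  simp only [beq_iff_eq] at this
  show Zn i (qa k m) (qb k m) (qc k m) (qd k m) = true ↔ Zn (rc (ent i % 32))
    (pv (ent i / 32) (qa k m)) (pv (ent i / 32) (qb k m)) (pv (ent i / 32) (qc k m))
    (pv (ent i / 32) (qd k m)) = true
  rw [this]

theorem exists_class (D : SimpleTopGraph (⊤ : SimpleGraph (Fin 5))) :
    ∃ r : Fin 23, ∃ π : Equiv.Perm (Fin 5),
    ∀ a b c d : Fin 5, a ≠ b → a ≠ c → a ≠ d → b ≠ c → b ≠ d → c ≠ d →
      (D.Cross s(a, b) s(c, d) ↔ Zn (rc r) (π a) (π b) (π c) (π d) = true) := by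
  obtain ⟨i, hi, h⟩ := exists_code D
  obtain ⟨r, π, h'⟩ := exists_rep hi
  exact ⟨r, π, fun a b c d n1 n2 n3 n4 n5 n6 =>
    (h a b c d n1 n2 n3 n4 n5 n6).trans (h' a b c d n1 n2 n3 n4 n5 n6)⟩

/-- the class of a drawing -/
noncomputable def cls (D : SimpleTopGraph (⊤ : SimpleGraph (Fin 5))) : Fin 23 :=
  (exists_class D).choose

theorem iso_of_cls {D D' : SimpleTopGraph (⊤ : SimpleGraph (Fin 5))} (h : cls D = cls D') :
    WeakIso D D' := by
  obtain ⟨π, hπ⟩ := (exists_class D).choose_spec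
  obtain ⟨π', hπ'⟩ := (exists_class D').choose_spec
  change cls D = cls D' at h
  have e : (exists_class D).choose = (exists_class D').choose := h
  rw [e] at hπ
  have hinj := (π.trans π'.symm).injective
  refine ⟨⟨π.trans π'.symm, by
    intro a b
    simp only [SimpleGraph.top_adj]
    exact hinj.ne_iff⟩, ?_⟩
  intro x hx y hy
  induction x with
  | _ a b =>
    induction y with
    | _ c d =>
      show D.Cross s(a, b) s(c, d) ↔ D'.Cross s((π.trans π'.symm) a, (π.trans π'.symm) b)
        s((π.trans π'.symm) c, (π.trans π'.symm) d)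
      have hab : a ≠ b := hx
      have hcd : c ≠ d := hy
      have hab' : (π.trans π'.symm) a ≠ (π.trans π'.symm) b := hinj.ne hab
      have hcd' : (π.trans π'.symm) c ≠ (π.trans π'.symm) d := hinj.ne hcd
      have mem1 : ∀ {u v : Fin 5}, u ≠ v →
          (s(u, v) : Sym2 (Fin 5)) ∈ (⊤ : SimpleGraph (Fin 5)).edgeSet := fun h => h
      by_cases h1 : a ≠ c ∧ a ≠ d ∧ b ≠ c ∧ b ≠ d
      · obtain ⟨n2, n3, n4, n5⟩ := h1
        rw [hπ a b c d hab n2 n3 n4 n5 hcd,
          hπ' _ _ _ _ hab' (hinj.ne n2) (hinj.ne n3) (hinj.ne n4) (hinj.ne n5) hcd']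
        simp
      · have h2 : ∃ w, w ∈ (s(a, b) : Sym2 (Fin 5)) ∧ w ∈ (s(c, d) : Sym2 (Fin 5)) := by
          by_contra hcon
          push Not at hcon
          apply h1
          refine ⟨?_, ?_, ?_, ?_⟩
          · rintro rfl; exact hcon a (by simp) (by simp)
          · rintro rfl; exact hcon a (by simp) (by simp)
          · rintro rfl; exact hcon b (by simp) (by simp)
          · rintro rfl; exact hcon b (by simp) (by simp)
        obtain ⟨w, h3, h4⟩ := h2
        have f1 := D.not_cross_of_mem (mem1 hab) (mem1 hcd) h3 h4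
        have f2 := D'.not_cross_of_mem (mem1 hab') (mem1 hcd') (w := (π.trans π'.symm) w)
          (by
            rw [Sym2.mem_iff] at h3 ⊢
            rcases h3 with rfl | rfl
            · left; rfl
            · right; rfl)
          (by
            rw [Sym2.mem_iff] at h4 ⊢
            rcases h4 with rfl | rfl
            · left; rfl
            · right; rfl)
        exact iff_of_false f1 f2

theorem upper : Tw (⊤ : SimpleGraph (Fin 5)) ≤ 23 := by
  have hinj : Function.Injective
      (fun q : Quotient (weakSetoid (⊤ : SimpleGraph (Fin 5))) => cls q.out) := by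
    intro q q' h
    rw [← Quotient.out_eq q, ← Quotient.out_eq q']
    exact Quotient.sound (iso_of_cls h)
  have := Nat.card_le_card_of_injective _ hinj
  rw [Nat.card_eq_fintype_card (α := Fin 23), Fintype.card_fin] at this
  exact this

end Pool.Agent.H858R3.Upper
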